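import Pool.Agent.Run7.h356.LP.Stm

set_option autoImplicit false

noncomputable section

open MeasureTheory Filter Topology Set
open scoped BigOperators Matrix ENNReal

namespace H356LP

open H712MA

namespace CCAx

lemma continuous_pk {n : ℕ} (v : Fin n → ℝ) : Continuous (pk v) := by
  have h : pk v = fun z => Complex.equivRealProdCLM.symm (v ⬝ᵥ z.1, v ⬝ᵥ z.2) := by
    funext z
    apply Complex.ext <;> simp [pk]
  rw [h]
  apply Complex.equivRealProdCLM.symm.continuous.comp
  unfold dotProduct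
  fun_prop

lemma measurable_e (L : Lens) : Measurable L.e := by
  classical
  have h : L.e = L.W.piecewise L.e (fun _ => 1) := by
    funext p
    by_cases hp : p ∈ L.W
    · rw [piecewise_eq_of_mem _ _ _ hp]
    · rw [piecewise_eq_of_notMem _ _ _ hp, L.off p hp]
  rw [h]
  exact ContinuousOn.measurable_piecewise L.diff.continuousOn continuousOn_const
    L.isOpen.measurableSet

lemma measurable_gf (L : Lens) (m : ℕ) : Measurable (gf L m) :=
  (measurable_e L).pow_const m

lemma measurable_af (L : Lens) (m : ℕ) : Measurable (af L m) := by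
  classical
  have hW : MeasurableSet {p | p ∈ L.W} := L.isOpen.measurableSet
  have h : Measurable (gd L m) := by
    unfold gd
    refine Measurable.ite hW ?_ measurable_const
    exact (measurable_const.mul ((measurable_e L).pow_const _)).mul (measurable_deriv _)
  unfold af
  exact h.norm.pow_const _

lemma measurableSet_PosK (κ : Type) [Fintype κ] : MeasurableSet {s : κ → ℝ | ∀ k, 0 < s k} := by
  have h : {s : κ → ℝ | ∀ k, 0 < s k} = ⋂ k, {s : κ → ℝ | 0 < s k} := by
    ext s; simp
  rw [h]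
  exact MeasurableSet.iInter fun k => measurableSet_lt measurable_const (measurable_pi_apply k)

/-- total mass of the exponential law -/
lemma one_le_exp (κ : Type) [Fintype κ] :
    1 ≤ ∫⁻ s in {s : κ → ℝ | ∀ k, 0 < s k}, ENNReal.ofReal (Real.exp (-∑ k, s k)) := by
  classical
  have h0 : ∫ s : κ → ℝ, ∏ k, (Ioi (0 : ℝ)).indicator (fun v => Real.exp (-v)) (s k) = 1 := by
    rw [integral_fintype_prod_volume_eq_prod
      (f := fun (_ : κ) (v : ℝ) => (Ioi (0 : ℝ)).indicator (fun v => Real.exp (-v)) v)]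
    refine Finset.prod_eq_one fun k _ => ?_
    rw [integral_indicator measurableSet_Ioi]
    exact integral_exp_neg_Ioi_zero
  rw [← lintegral_indicator (measurableSet_PosK κ)]
  calc (1 : ℝ≥0∞) = ENNReal.ofReal (∫ s : κ → ℝ,
        ∏ k, (Ioi (0 : ℝ)).indicator (fun v => Real.exp (-v)) (s k)) := by
        rw [h0, ENNReal.ofReal_one]
    _ ≤ ‖∫ s : κ → ℝ, ∏ k, (Ioi (0 : ℝ)).indicator (fun v => Real.exp (-v)) (s k)‖ₑ := by
        rw [← ofReal_norm]
        exact ENNReal.ofReal_le_ofReal (le_abs_self _)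
    _ ≤ ∫⁻ s : κ → ℝ, ‖∏ k, (Ioi (0 : ℝ)).indicator (fun v => Real.exp (-v)) (s k)‖ₑ :=
        enorm_integral_le_lintegral_enorm _
    _ ≤ _ := by
        refine lintegral_mono fun s => ?_
        by_cases hs : ∀ k, 0 < s k
        · rw [indicator_of_mem (show s ∈ {s : κ → ℝ | ∀ k, 0 < s k} from hs)]
          have : ∏ k, (Ioi (0 : ℝ)).indicator (fun v => Real.exp (-v)) (s k) =
              Real.exp (-∑ k, s k) := by
            rw [← Finset.sum_neg_distrib, Real.exp_sum]
            refine Finset.prod_congr rfl fun k _ => ?_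
            rw [indicator_of_mem (show s k ∈ Ioi (0 : ℝ) from hs k)]
          rw [this, ← ofReal_norm, Real.norm_of_nonneg (Real.exp_pos _).le]
        · push Not at hs
          obtain ⟨k, hk⟩ := hs
          have : ∏ k, (Ioi (0 : ℝ)).indicator (fun v => Real.exp (-v)) (s k) = 0 := by
            refine Finset.prod_eq_zero (Finset.mem_univ k) ?_
            rw [indicator_of_notMem]
            simpa using hk
          rw [this, enorm_zero]
          exact zero_le

lemma dt_inj {κ : Type} {n : ℕ} (l : κ → Fin n → ℝ) (f : Fin n → κ) (h : dt l f ≠ 0) :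
    Function.Injective f := by
  intro i j hij
  by_contra hne
  apply h
  unfold dt
  exact Matrix.det_zero_of_row_eq hne (by funext c; simp [hij])

open Classical in
/-- the pointwise bound for the cut-off function -/
lemma psi_bound {p q : ℝ} (D : Dat p q) {κ : Type} [Fintype κ] {n : ℕ} (l : κ → Fin n → ℝ)
    (f : Fin n → κ) (hf : Function.Injective f) (ψ : ℝ → ℝ) (v1 : ℝ) (hψ : Cut ψ v1) (m : ℕ)
    (s : κ → ℝ) (hs : ∀ k, 0 < s k) (z : E2 n) (τ : Fin n → ℂ)
    (hτ : ∀ i, pk (sc p s l (f i)) z = τ i) :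
    ENNReal.ofReal (ψ (VV D.L m (sc p s l) z)) ≤
      ENNReal.ofReal (ψ (∑ i, ‖gf D.L m (τ i)‖ ^ 2)) *
        ∏ k ∈ Finset.univ.filter (fun k => k ∉ Set.range f),
          if D.V (pk (l k) z) < s k then 1 else 0 := by
  by_cases h0 : ψ (VV D.L m (sc p s l) z) = 0
  · rw [h0, ENNReal.ofReal_zero]; exact zero_le
  have hlt : VV D.L m (sc p s l) z < 1 := by
    by_contra h
    push Not at h
    exact h0 (hψ.zero _ (hψ.lt1.le.trans h))
  have hk : ∀ k, D.V (pk (l k) z) < s k := by
    intro k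
    have h1 : ‖gf D.L m (pk (sc p s l k) z)‖ ^ 2 < 1 := by
      refine lt_of_le_of_lt ?_ hlt
      unfold VV
      exact Finset.single_le_sum (f := fun k => ‖gf D.L m (pk (sc p s l k) z)‖ ^ 2)
        (fun _ _ => by positivity) (Finset.mem_univ k)
    have h2 : pk (sc p s l k) z ∈ D.L.W := by
      by_contra h
      unfold gf at h1
      rw [D.L.off _ h] at h1
      simp at h1
    have h3 : pk (sc p s l k) z = ((s k ^ (-(1 / p)) : ℝ) : ℂ) * pk (l k) z := by
      apply Complex.ext <;> simp [pk, sc]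
    rw [h3] at h2
    exact (D.Vlt _ _ (hs k)).1 h2
  have hprod : (∏ k ∈ Finset.univ.filter (fun k => k ∉ Set.range f),
      if D.V (pk (l k) z) < s k then (1 : ℝ≥0∞) else 0) = 1 :=
    Finset.prod_eq_one fun k _ => by rw [if_pos (hk k)]
  rw [hprod, mul_one]
  refine ENNReal.ofReal_le_ofReal (hψ.anti ?_)
  have h5 : ∑ i, ‖gf D.L m (τ i)‖ ^ 2 =
      ∑ k ∈ Finset.univ.image f, ‖gf D.L m (pk (sc p s l k) z)‖ ^ 2 := by
    rw [Finset.sum_image (fun i _ j _ h => hf h)]
    exact Finset.sum_congr rfl fun i _ => by rw [hτ i]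
  rw [h5]
  unfold VV
  exact Finset.sum_le_sum_of_subset_of_nonneg (Finset.subset_univ _) fun _ _ _ => by positivity

/-- the sum over `f` for fixed scalings -/
lemma fixed_s (h6 : S_C6) (hZ : S_ZF) {p q : ℝ} (D : Dat p q) {κ : Type} [Fintype κ] (r : ℕ)
    (l : κ → Fin (r + 1) → ℝ) (hl : Spans l) (ψ : ℝ → ℝ) (v1 : ℝ) (hψ : Cut ψ v1) (m : ℕ)
    (hm : 1 ≤ m) (s : κ → ℝ) (hs : ∀ k, 0 < s k) :
    ENNReal.ofReal (((r + 1).factorial : ℝ) * (m * Real.pi) ^ (r + 1) *
        ∫ s in Pos (r + 1), ψ (∑ i, s i)) ≤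
      ∑ f : Fin (r + 1) → κ, ∫⁻ z : E2 (r + 1), ENNReal.ofReal ((dt (sc p s l) f) ^ 2) *
        (ENNReal.ofReal (ψ (VV D.L m (sc p s l) z)) *
          ∏ i, ENNReal.ofReal (af D.L m (pk (sc p s l (f i)) z))) := by
  have hsp : Spans (sc p s l) := by
    obtain ⟨f, hf⟩ := hl
    exact ⟨f, ((hZ κ (r + 1) l f hf).2.2.2 p s hs).1⟩
  have haf : ∀ t, 0 ≤ af D.L m t := fun t => by unfold af; positivity
  have hVV : Measurable (VV D.L m (sc p s l)) := by
    unfold VV
    refine Finset.measurable_sum _ fun k _ => ?_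
    exact ((measurable_gf D.L m).comp (continuous_pk _).measurable).norm.pow_const 2
  have hψm : Measurable ψ := hψ.smooth.continuous.measurable
  have hm1 : ∀ f : Fin (r + 1) → κ, Measurable fun z : E2 (r + 1) =>
      ENNReal.ofReal ((dt (sc p s l) f) ^ 2) * (ENNReal.ofReal (ψ (VV D.L m (sc p s l) z)) *
          ∏ i, ENNReal.ofReal (af D.L m (pk (sc p s l (f i)) z))) := by
    intro f
    refine measurable_const.mul ((ENNReal.measurable_ofReal.comp (hψm.comp hVV)).mul ?_)
    refine Finset.measurable_prod _ fun i _ => ?_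
    exact ENNReal.measurable_ofReal.comp ((measurable_af D.L m).comp (continuous_pk _).measurable)
  calc _ ≤ ENNReal.ofReal (∫ z : E2 (r + 1), ψ (VV D.L m (sc p s l) z) *
          DS (sc p s l) (fun k => af D.L m (pk (sc p s l k) z))) :=
        ENNReal.ofReal_le_ofReal (h6 κ r D.L m hm (sc p s l) hsp ψ v1 hψ)
    _ ≤ ‖∫ z : E2 (r + 1), ψ (VV D.L m (sc p s l) z) *
          DS (sc p s l) (fun k => af D.L m (pk (sc p s l k) z))‖ₑ := by
        rw [← ofReal_norm]
        exact ENNReal.ofReal_le_ofReal (le_abs_self _)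
    _ ≤ ∫⁻ z : E2 (r + 1), ‖ψ (VV D.L m (sc p s l) z) *
          DS (sc p s l) (fun k => af D.L m (pk (sc p s l k) z))‖ₑ :=
        enorm_integral_le_lintegral_enorm _
    _ = ∫⁻ z : E2 (r + 1), ∑ f : Fin (r + 1) → κ, ENNReal.ofReal ((dt (sc p s l) f) ^ 2) *
        (ENNReal.ofReal (ψ (VV D.L m (sc p s l) z)) *
          ∏ i, ENNReal.ofReal (af D.L m (pk (sc p s l (f i)) z))) := by
        refine lintegral_congr fun z => ?_
        rw [← ofReal_norm, Real.norm_of_nonneg (mul_nonneg (hψ.nonneg _) (by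
          unfold DS
          exact Finset.sum_nonneg fun f _ =>
            mul_nonneg (Finset.prod_nonneg fun i _ => haf _) (sq_nonneg _)))]
        unfold DS
        rw [Finset.mul_sum, ENNReal.ofReal_sum_of_nonneg (fun f _ => mul_nonneg (hψ.nonneg _)
            (mul_nonneg (Finset.prod_nonneg fun i _ => haf _) (sq_nonneg _)))]
        refine Finset.sum_congr rfl fun f _ => ?_
        rw [ENNReal.ofReal_mul (hψ.nonneg _),
          ENNReal.ofReal_mul (Finset.prod_nonneg fun i _ => haf _),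
          ENNReal.ofReal_prod_of_nonneg (fun i _ => haf _)]
        ring
    _ = _ := lintegral_finsetSum _ fun f _ => hm1 f

open Classical in
lemma per_f (hZ : S_ZF) (hPI : S_PI) (hSP : S_SP) {p q : ℝ} (D : Dat p q)
    {κ : Type} [Fintype κ] (n : ℕ) (l : κ → Fin n → ℝ) (f : Fin n → κ) (hf : dt l f ≠ 0)
    (ψ : ℝ → ℝ) (v1 : ℝ) (hψ : Cut ψ v1) (m : ℕ) (hm : 1 ≤ m) :
    ∫⁻ s in {s : κ → ℝ | ∀ k, 0 < s k}, ENNReal.ofReal (Real.exp (-∑ k, s k)) *
      ∫⁻ z : E2 n, ENNReal.ofReal ((dt (sc p s l) f) ^ 2) *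
        (ENNReal.ofReal (ψ (VV D.L m (sc p s l) z)) *
          ∏ i, ENNReal.ofReal (af D.L m (pk (sc p s l (f i)) z))) ≤
    ENNReal.ofReal ((m : ℝ) / 2) ^ n *
      ∫⁻ v in Cub n, ENNReal.ofReal (ψ (∑ i, v i)) * ∫⁻ φ in Ang n,
          ∫⁻ s in Pos n, ENNReal.ofReal (Real.exp (-∑ i, s i)) *
            ENNReal.ofReal (Real.exp (- D.VO l f
              (zf l f fun i => ((s i ^ (1 / p) : ℝ) : ℂ) * D.H m (v i) (φ i)))) := by
  have hinj := dt_inj l f hf
  have hψm : Measurable ψ := hψ.smooth.continuous.measurable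
  have hafm := measurable_af D.L m
  have hgfm := measurable_gf D.L m
  -- the functions of `τ`
  obtain ⟨A, hA⟩ : ∃ A : (Fin n → ℂ) → ℝ≥0∞,
    ∀ τ, A τ = ENNReal.ofReal (ψ (∑ i, ‖gf D.L m (τ i)‖ ^ 2)) := ⟨_, fun _ => rfl⟩
  obtain ⟨P, hP⟩ : ∃ P : (Fin n → ℂ) → ℝ≥0∞,
    ∀ τ, P τ = ∏ i, ENNReal.ofReal (af D.L m (τ i)) := ⟨_, fun _ => rfl⟩
  obtain ⟨W, hW⟩ : ∃ W : (Fin n → ℝ) → (Fin n → ℂ) → E2 n,
    ∀ s τ, W s τ = zf l f (fun i => ((s i ^ (1 / p) : ℝ) : ℂ) * τ i) := ⟨_, fun _ _ => rfl⟩
  simp only [← hW]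
  have hAm : Measurable A := by
    rw [show A = fun τ => ENNReal.ofReal (ψ (∑ i, ‖gf D.L m (τ i)‖ ^ 2)) from funext hA]
    refine ENNReal.measurable_ofReal.comp (hψm.comp (Finset.measurable_sum _ fun i _ => ?_))
    exact (hgfm.comp (measurable_pi_apply i)).norm.pow_const 2
  have hPm : Measurable P := by
    rw [show P = fun τ => ∏ i, ENNReal.ofReal (af D.L m (τ i)) from funext hP]
    exact Finset.measurable_prod _ fun i _ =>
      ENNReal.measurable_ofReal.comp (hafm.comp (measurable_pi_apply i))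
  have hzc : Continuous (zf l f) := (hZ κ n l f hf).2.1
  have hWm : Measurable fun w : (Fin n → ℝ) × (Fin n → ℂ) => W w.1 w.2 := by
    simp only [hW]
    refine hzc.measurable.comp (measurable_pi_lambda _ fun i => ?_)
    refine Measurable.mul (Complex.measurable_ofReal.comp ?_) ?_
    · exact ((measurable_pi_apply i).comp measurable_fst).pow_const _
    · exact (measurable_pi_apply i).comp measurable_snd
  obtain ⟨VW, hVW⟩ : ∃ VW : κ → (Fin n → ℝ) → (Fin n → ℂ) → ℝ,
    ∀ k s τ, VW k s τ = D.V (pk (l k) (W s τ)) := ⟨_, fun _ _ _ => rfl⟩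
  have hVm : ∀ k, Measurable fun w : (Fin n → ℝ) × (Fin n → ℂ) => VW k w.1 w.2 := by
    intro k
    simp only [hVW]
    exact D.Vcont.measurable.comp ((continuous_pk (l k)).measurable.comp hWm)
  have hVO : ∀ s τ, D.VO l f (W s τ) =
      ∑ k ∈ Finset.univ.filter (fun k => k ∉ Set.range f), VW k s τ := by
    intro s τ
    simp only [hVW]
    rfl
  simp only [hVO]
  -- step 1: bound of the inner integral
  have step1 : ∀ s ∈ {s : κ → ℝ | ∀ k, 0 < s k},
      ENNReal.ofReal (Real.exp (-∑ k, s k)) *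
      ∫⁻ z : E2 n, ENNReal.ofReal ((dt (sc p s l) f) ^ 2) *
        (ENNReal.ofReal (ψ (VV D.L m (sc p s l) z)) *
          ∏ i, ENNReal.ofReal (af D.L m (pk (sc p s l (f i)) z))) ≤
      ∫⁻ τ : Fin n → ℂ, ENNReal.ofReal (Real.exp (-∑ k, s k)) * ((A τ * P τ) *
        ∏ k ∈ Finset.univ.filter (fun k => k ∉ Set.range f),
          if VW k (fun i => s (f i)) τ < s k then 1 else 0) := by
    intro s hs
    have hs' : ∀ k, 0 < s k := hs
    obtain ⟨hd, hzs⟩ := (hZ κ n l f hf).2.2.2 p s hs'
    have hVV : Measurable (VV D.L m (sc p s l)) := by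
      unfold VV
      refine Finset.measurable_sum _ fun k _ => ?_
      exact (hgfm.comp (continuous_pk _).measurable).norm.pow_const 2
    have hXm : Measurable fun z : E2 n => (ENNReal.ofReal (ψ (VV D.L m (sc p s l) z)) *
          ∏ i, ENNReal.ofReal (af D.L m (pk (sc p s l (f i)) z))) := by
      refine (ENNReal.measurable_ofReal.comp (hψm.comp hVV)).mul ?_
      refine Finset.measurable_prod _ fun i _ => ?_
      exact ENNReal.measurable_ofReal.comp (hafm.comp (continuous_pk _).measurable)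
    rw [(hZ κ n (sc p s l) f hd).2.2.1 _ hXm, ← lintegral_const_mul' _ _ ENNReal.ofReal_ne_top]
    refine lintegral_mono fun τ => mul_le_mul_right ?_ _
    have hpk : ∀ i, pk (sc p s l (f i)) (zf (sc p s l) f τ) = τ i :=
      fun i => (hZ κ n (sc p s l) f hd).1 τ i
    have h1 := psi_bound D l f hinj ψ v1 hψ m s hs' (zf (sc p s l) f τ) τ hpk
    have h2 : (∏ i, ENNReal.ofReal (af D.L m (pk (sc p s l (f i)) (zf (sc p s l) f τ)))) = P τ := by
      rw [hP]
      exact Finset.prod_congr rfl fun i _ => by rw [hpk i]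
    rw [h2]
    have h3 : zf (sc p s l) f τ = W (fun i => s (f i)) τ := by rw [hzs τ, hW]
    rw [h3, ← hA] at h1
    rw [h3]
    simp only [← hVW] at h1
    calc _ ≤ (A τ * ∏ k ∈ Finset.univ.filter (fun k => k ∉ Set.range f),
          if VW k (fun i => s (f i)) τ < s k then 1 else 0) * P τ :=
          mul_le_mul_left h1 _
      _ = _ := by ring
  refine (setLIntegral_mono' (measurableSet_PosK κ) step1).trans ?_
  -- step 2: swap
  have hKm : Measurable fun w : (κ → ℝ) × (Fin n → ℂ) =>
      ENNReal.ofReal (Real.exp (-∑ k, w.1 k)) * ((A w.2 * P w.2) *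
        ∏ k ∈ Finset.univ.filter (fun k => k ∉ Set.range f),
          if VW k (fun i => w.1 (f i)) w.2 < w.1 k then 1 else 0) := by
    have hr : Measurable fun w : (κ → ℝ) × (Fin n → ℂ) => ((fun i => w.1 (f i)), w.2) := by
      refine Measurable.prodMk (measurable_pi_lambda _ fun i => ?_) measurable_snd
      exact (measurable_pi_apply _).comp measurable_fst
    refine Measurable.mul ?_ (Measurable.mul ((hAm.comp measurable_snd).mul
      (hPm.comp measurable_snd)) (Finset.measurable_prod _ fun k _ => ?_))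
    · refine ENNReal.measurable_ofReal.comp (Real.measurable_exp.comp ?_)
      exact (Finset.measurable_sum _ fun k _ => (measurable_pi_apply k).comp measurable_fst).neg
    · have hV1 : Measurable fun w : (κ → ℝ) × (Fin n → ℂ) => VW k (fun i => w.1 (f i)) w.2 :=
        (hVm k).comp hr
      have hV2 : Measurable fun w : (κ → ℝ) × (Fin n → ℂ) => w.1 k :=
        (measurable_pi_apply k).comp measurable_fst
      exact Measurable.ite (measurableSet_lt hV1 hV2) measurable_const measurable_const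
  rw [lintegral_lintegral_swap hKm.aemeasurable]
  -- step 3: split
  have step3 : ∀ τ : Fin n → ℂ,
      ∫⁻ s in {s : κ → ℝ | ∀ k, 0 < s k}, ENNReal.ofReal (Real.exp (-∑ k, s k)) * ((A τ * P τ) *
        ∏ k ∈ Finset.univ.filter (fun k => k ∉ Set.range f),
          if VW k (fun i => s (f i)) τ < s k then 1 else 0) ≤
      (A τ * ∫⁻ s in Pos n, ENNReal.ofReal (Real.exp (-∑ i, s i)) *
            ENNReal.ofReal (Real.exp (-
              ∑ k ∈ Finset.univ.filter (fun k => k ∉ Set.range f), VW k s τ))) * P τ := by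
    intro τ
    have hAt : A τ ≠ ∞ := by rw [hA]; exact ENNReal.ofReal_ne_top
    have hPt : P τ ≠ ∞ := by rw [hP]; exact ENNReal.prod_ne_top fun i _ => ENNReal.ofReal_ne_top
    have hVm' : ∀ k, Measurable fun s : Fin n → ℝ => VW k s τ := fun k =>
      (hVm k).comp (measurable_id.prodMk measurable_const)
    have hVnn : ∀ (s : Fin n → ℝ) k, 0 ≤ VW k s τ := fun s k => by rw [hVW]; exact D.Vnn _
    refine (hSP κ n f hinj (fun _ => A τ * P τ) (fun s k => VW k s τ)
      measurable_const hVm' hVnn).trans (le_of_eq ?_)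
    have e1 : (A τ * ∫⁻ s in Pos n, ENNReal.ofReal (Real.exp (-∑ i, s i)) *
            ENNReal.ofReal (Real.exp (-
              ∑ k ∈ Finset.univ.filter (fun k => k ∉ Set.range f), VW k s τ))) * P τ =
        (A τ * P τ) * ∫⁻ s in Pos n, ENNReal.ofReal (Real.exp (-∑ i, s i)) *
            ENNReal.ofReal (Real.exp (-
              ∑ k ∈ Finset.univ.filter (fun k => k ∉ Set.range f), VW k s τ)) := by ring
    rw [e1, ← lintegral_const_mul' _ _ (ENNReal.mul_ne_top hAt hPt)]
    refine lintegral_congr fun s => ?_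
    ring
  refine (lintegral_mono step3).trans ?_
  -- step 4: product of push-forwards
  obtain ⟨Q, hQ⟩ : ∃ Q : (Fin n → ℂ) → ℝ≥0∞, ∀ τ, Q τ = ∫⁻ s in Pos n,
      ENNReal.ofReal (Real.exp (-∑ i, s i)) *
            ENNReal.ofReal (Real.exp (-
              ∑ k ∈ Finset.univ.filter (fun k => k ∉ Set.range f), VW k s τ)) :=
    ⟨_, fun _ => rfl⟩
  simp only [← hQ]
  have hQm : Measurable Q := by
    rw [show Q = fun τ => ∫⁻ s in Pos n, ENNReal.ofReal (Real.exp (-∑ i, s i)) *
            ENNReal.ofReal (Real.exp (-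
              ∑ k ∈ Finset.univ.filter (fun k => k ∉ Set.range f), VW k s τ)) from funext hQ]
    refine Measurable.lintegral_prod_left' (f := fun w : (Fin n → ℝ) × (Fin n → ℂ) =>
      ENNReal.ofReal (Real.exp (-∑ i, w.1 i)) *
            ENNReal.ofReal (Real.exp (-
              ∑ k ∈ Finset.univ.filter (fun k => k ∉ Set.range f), VW k w.1 w.2))) ?_
    have h9 : Measurable fun w : (Fin n → ℝ) × (Fin n → ℂ) =>
        ENNReal.ofReal (Real.exp (-∑ i, w.1 i)) := by
      refine ENNReal.measurable_ofReal.comp (Real.measurable_exp.comp ?_)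
      exact (Finset.measurable_sum _ fun k _ => (measurable_pi_apply k).comp measurable_fst).neg
    have h10 : Measurable fun w : (Fin n → ℝ) × (Fin n → ℂ) =>
        ENNReal.ofReal (Real.exp (-
              ∑ k ∈ Finset.univ.filter (fun k => k ∉ Set.range f), VW k w.1 w.2)) := by
      refine ENNReal.measurable_ofReal.comp (Real.measurable_exp.comp ?_)
      exact (Finset.measurable_sum _ fun k _ => hVm k).neg
    exact h9.mul h10
  have hPI' := (hPI p q D n (fun τ => A τ * Q τ) (hAm.mul hQm)).1 m hm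
  simp only [← hP] at hPI'
  refine hPI'.trans ?_
  refine mul_le_mul_right ?_ _
  have hCm : MeasurableSet (Cub n) := by
    have h : Cub n = ⋂ i, {v : Fin n → ℝ | 0 < v i ∧ v i < 1} := by
      ext v; simp [Cub]
    rw [h]
    exact MeasurableSet.iInter fun i => (measurableSet_lt measurable_const
      (measurable_pi_apply i)).inter (measurableSet_lt (measurable_pi_apply i) measurable_const)
  refine setLIntegral_mono' hCm fun v hv => ?_
  rw [← lintegral_const_mul' _ _ ENNReal.ofReal_ne_top]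
  refine lintegral_mono fun φ => ?_
  have h6 : A (fun i => D.H m (v i) (φ i)) = ENNReal.ofReal (ψ (∑ i, v i)) := by
    rw [hA]
    congr 2
    refine Finset.sum_congr rfl fun i _ => ?_
    exact D.nrm m hm (v i) (φ i) (hv i).1 (hv i).2
  rw [h6]

end CCAx

open CCAx

open Classical in
/-- the integrated inequality for fixed `m` -/
theorem CCA (h6 : S_C6) (hZ : S_ZF) (hPI : S_PI) (hSP : S_SP) : S_CCA := by
  intro p q D hp κ _ r l hl ψ v1 hψ m hm
  set I : ℝ := ∫ s in Pos (r + 1), ψ (∑ i, s i) with hI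
  have hm0 : (0 : ℝ) < m := by exact_mod_cast hm
  set C : ℝ≥0∞ := ENNReal.ofReal ((m : ℝ) / 2) ^ (r + 1) with hC
  have hC0 : C ≠ 0 := pow_ne_zero _ (by
    rw [Ne, ENNReal.ofReal_eq_zero, not_le]; positivity)
  have hCt : C ≠ ∞ := ENNReal.pow_ne_top ENNReal.ofReal_ne_top
  set t : (Fin (r + 1) → κ) → (κ → ℝ) → ℝ≥0∞ := fun f s =>
    ∫⁻ z : E2 (r + 1), ENNReal.ofReal ((dt (sc p s l) f) ^ 2) *
        (ENNReal.ofReal (ψ (VV D.L m (sc p s l) z)) *
          ∏ i, ENNReal.ofReal (af D.L m (pk (sc p s l (f i)) z))) with ht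
  set J : (Fin (r + 1) → κ) → ℝ≥0∞ := fun f =>
    ∫⁻ v in Cub (r + 1), ENNReal.ofReal (ψ (∑ i, v i)) * ∫⁻ φ in Ang (r + 1),
          ∫⁻ s in Pos (r + 1), ENNReal.ofReal (Real.exp (-∑ i, s i)) *
            ENNReal.ofReal (Real.exp (- D.VO l f
              (zf l f fun i => ((s i ^ (1 / p) : ℝ) : ℂ) * D.H m (v i) (φ i)))) with hJ
  have hψm : Measurable ψ := hψ.smooth.continuous.measurable
  -- measurability of `t f`
  have htm : ∀ f, Measurable (t f) := by
    intro f
    have hpkm : ∀ k, Measurable fun w : (κ → ℝ) × E2 (r + 1) => pk (sc p w.1 l k) w.2 := by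
      intro k
      have e : (fun w : (κ → ℝ) × E2 (r + 1) => pk (sc p w.1 l k) w.2) =
          fun w => ((w.1 k ^ (-(1 / p)) : ℝ) : ℂ) * pk (l k) w.2 := by
        funext w
        apply Complex.ext <;> simp [pk, sc]
      rw [e]
      refine Measurable.mul (Complex.measurable_ofReal.comp ?_)
        ((continuous_pk (l k)).measurable.comp measurable_snd)
      exact ((measurable_pi_apply k).comp measurable_fst).pow_const _
    have hdm : Measurable fun w : (κ → ℝ) × E2 (r + 1) => dt (sc p w.1 l) f := by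
      have e : (fun w : (κ → ℝ) × E2 (r + 1) => dt (sc p w.1 l) f) =
          fun w => ∑ σ : Equiv.Perm (Fin (r + 1)), ((Equiv.Perm.sign σ : ℤ) : ℝ) *
            ∏ i, (w.1 (f (σ i)) ^ (-(1 / p)) * l (f (σ i)) i) := by
        funext w
        unfold dt
        rw [Matrix.det_apply']
        rfl
      rw [e]
      refine Finset.measurable_sum _ fun σ _ => ?_
      refine Measurable.mul measurable_const ?_
      refine Finset.measurable_prod _ fun i _ => ?_
      refine Measurable.mul ?_ measurable_const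
      have h8 : Measurable fun w : (κ → ℝ) × E2 (r + 1) => w.1 (f (σ i)) :=
        (measurable_pi_apply _).comp measurable_fst
      exact h8.pow_const _
    refine Measurable.lintegral_prod_right' (f := fun w : (κ → ℝ) × E2 (r + 1) =>
      ENNReal.ofReal ((dt (sc p w.1 l) f) ^ 2) *
        (ENNReal.ofReal (ψ (VV D.L m (sc p w.1 l) w.2)) *
          ∏ i, ENNReal.ofReal (af D.L m (pk (sc p w.1 l (f i)) w.2)))) ?_
    refine Measurable.mul (ENNReal.measurable_ofReal.comp (hdm.pow_const 2)) (Measurable.mul ?_ ?_)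
    · refine ENNReal.measurable_ofReal.comp (hψm.comp ?_)
      unfold VV
      refine Finset.measurable_sum _ fun k _ => ?_
      exact ((measurable_gf D.L m).comp (hpkm k)).norm.pow_const 2
    · refine Finset.measurable_prod _ fun i _ => ?_
      exact ENNReal.measurable_ofReal.comp ((measurable_af D.L m).comp (hpkm (f i)))
  have hem : Measurable fun s : κ → ℝ => ENNReal.ofReal (Real.exp (-∑ k, s k)) :=
    ENNReal.measurable_ofReal.comp (Real.measurable_exp.comp
      (Finset.measurable_sum _ fun k _ => measurable_pi_apply k).neg)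
  -- integrate over the scalings
  have h1 : ENNReal.ofReal (((r + 1).factorial : ℝ) * (m * Real.pi) ^ (r + 1) * I) ≤
      ∑ f : Fin (r + 1) → κ, ∫⁻ s in {s : κ → ℝ | ∀ k, 0 < s k},
        ENNReal.ofReal (Real.exp (-∑ k, s k)) * t f s := by
    set N : ℝ≥0∞ := ENNReal.ofReal (((r + 1).factorial : ℝ) * (m * Real.pi) ^ (r + 1) * I)
    calc N = 1 * N := (one_mul _).symm
      _ ≤ (∫⁻ s in {s : κ → ℝ | ∀ k, 0 < s k}, ENNReal.ofReal (Real.exp (-∑ k, s k))) * N :=
          mul_le_mul_left (one_le_exp κ) _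
      _ = ∫⁻ s in {s : κ → ℝ | ∀ k, 0 < s k}, ENNReal.ofReal (Real.exp (-∑ k, s k)) * N :=
          (lintegral_mul_const' _ _ ENNReal.ofReal_ne_top).symm
      _ ≤ ∫⁻ s in {s : κ → ℝ | ∀ k, 0 < s k}, ∑ f : Fin (r + 1) → κ,
            ENNReal.ofReal (Real.exp (-∑ k, s k)) * t f s := by
          refine setLIntegral_mono' (measurableSet_PosK κ) fun s hs => ?_
          rw [← Finset.mul_sum]
          exact mul_le_mul_right (fixed_s h6 hZ D r l hl ψ v1 hψ m hm s hs) _
      _ = _ := lintegral_finsetSum _ fun f _ => hem.mul (htm f)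
  have h2 : ∀ f : Fin (r + 1) → κ, ∫⁻ s in {s : κ → ℝ | ∀ k, 0 < s k},
      ENNReal.ofReal (Real.exp (-∑ k, s k)) * t f s ≤ C * (if dt l f = 0 then 0 else J f) := by
    intro f
    by_cases hf : dt l f = 0
    · rw [if_pos hf, mul_zero]
      refine le_of_eq ?_
      have : ∀ s : κ → ℝ, ENNReal.ofReal (Real.exp (-∑ k, s k)) * t f s = 0 := by
        intro s
        have hd : dt (sc p s l) f = 0 := by
          have e : dt (sc p s l) f = (∏ i, s (f i) ^ (-(1 / p))) * dt l f := by
            unfold dt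
            rw [← Matrix.det_mul_column]
            rfl
          rw [e, hf, mul_zero]
        have : t f s = 0 := by
          rw [ht]
          simp only [hd]
          simp
        rw [this, mul_zero]
      simp only [this, lintegral_zero]
    · rw [if_neg hf]
      exact per_f hZ hPI hSP D (r + 1) l f hf ψ v1 hψ m hm
  have h3 : ENNReal.ofReal (((r + 1).factorial : ℝ) * (m * Real.pi) ^ (r + 1) * I) =
      C * ENNReal.ofReal (((r + 1).factorial : ℝ) * (2 * Real.pi) ^ (r + 1) * I) := by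
    rw [hC, ← ENNReal.ofReal_pow (by positivity), ← ENNReal.ofReal_mul (by positivity)]
    congr 1
    have : ((m : ℝ) * Real.pi) ^ (r + 1) = (m / 2) ^ (r + 1) * (2 * Real.pi) ^ (r + 1) := by
      rw [← mul_pow]
      congr 1
      ring
    rw [this]
    ring
  have h4 := h1.trans (Finset.sum_le_sum fun f _ => h2 f)
  rw [h3, ← Finset.mul_sum] at h4
  exact (ENNReal.mul_le_mul_iff_right hC0 hCt).1 h4

end H356LP
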