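import Pool.Agent.Run7.h356.LP.Stm

/-! # Piece LEN (helper468): the lens of a disc map -/

set_option autoImplicit false

noncomputable section

open MeasureTheory Filter Topology Set
open scoped BigOperators Matrix ENNReal

namespace H356LP

open H712MA

namespace LENaux

variable (D : Disc)

lemma mean_val (z w : ℂ) (hz : ‖z‖ ≤ 1) (hw : ‖w‖ ≤ 1) :
    D.c0 * ‖z - w‖ ^ 2 ≤ ((starRingEnd ℂ) (z - w) * (D.h z - D.h w)).re := by
  rcases eq_or_ne z w with rfl | hne
  · simp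
  have e0 : ∀ t : ℝ, (1 - t) • w + t • z = w + (t : ℂ) * (z - w) := by
    intro t
    simp only [Complex.real_smul]
    push_cast
    ring
  have hcl : ∀ t ∈ Set.Icc (0 : ℝ) 1, ‖w + (t : ℂ) * (z - w)‖ ≤ 1 := by
    intro t ht
    have h := (convex_closedBall (0 : ℂ) 1) (x := w) (by simpa using hw) (y := z) (by simpa using hz)
      (a := 1 - t) (b := t) (by linarith [ht.2]) ht.1 (by ring)
    rw [e0] at h
    simpa using h
  have hop : ∀ t ∈ Set.Ioo (0 : ℝ) 1, ‖w + (t : ℂ) * (z - w)‖ < 1 := by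
    intro t ht
    have h := (strictConvex_closedBall ℝ (0 : ℂ) 1) (x := w) (by simpa using hw) (y := z)
      (by simpa using hz) hne.symm (a := 1 - t) (b := t) (by linarith [ht.2]) ht.1 (by ring)
    rw [e0, interior_closedBall (0 : ℂ) one_ne_zero] at h
    simpa using h
  have h1 : ∀ t : ℝ, HasDerivAt (fun t : ℝ => w + (t : ℂ) * (z - w)) (z - w) t := by
    intro t
    have := ((hasDerivAt_id (t : ℂ)).comp_ofReal.mul_const (z - w)).const_add w
    simpa using this
  have hder : ∀ t ∈ Set.Ioo (0 : ℝ) 1, HasDerivAt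
      (fun t : ℝ => ((starRingEnd ℂ) (z - w) * D.h (w + (t : ℂ) * (z - w))).re)
      (((starRingEnd ℂ) (z - w) * (D.hd (w + (t : ℂ) * (z - w)) * (z - w))).re) t := by
    intro t ht
    have h2 := (D.der (w + (t : ℂ) * (z - w)) (hop t ht)).comp_of_eq t (h1 t) rfl
    have h3 := h2.const_mul ((starRingEnd ℂ) (z - w))
    exact Complex.reCLM.hasFDerivAt.comp_hasDerivAt t h3
  have hcont : ContinuousOn
      (fun t : ℝ => ((starRingEnd ℂ) (z - w) * D.h (w + (t : ℂ) * (z - w))).re) (Set.Icc 0 1) := by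
    have hc1 : Continuous (fun t : ℝ => w + (t : ℂ) * (z - w)) :=
      continuous_iff_continuousAt.2 fun t => (h1 t).continuousAt
    have hc2 : ContinuousOn (fun t : ℝ => D.h (w + (t : ℂ) * (z - w))) (Set.Icc 0 1) :=
      D.cont.comp hc1.continuousOn (fun t ht => by simpa using hcl t ht)
    exact Complex.continuous_re.comp_continuousOn (continuousOn_const.mul hc2)
  obtain ⟨t, ht, hslope⟩ := exists_hasDerivAt_eq_slope _ _ (one_pos : (0 : ℝ) < 1) hcont hder
  have e1 : ((starRingEnd ℂ) (z - w) * (D.hd (w + (t : ℂ) * (z - w)) * (z - w))).re =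
      ‖z - w‖ ^ 2 * (D.hd (w + (t : ℂ) * (z - w))).re := by
    have : (starRingEnd ℂ) (z - w) * (D.hd (w + (t : ℂ) * (z - w)) * (z - w)) =
        ((‖z - w‖ ^ 2 : ℝ) : ℂ) * D.hd (w + (t : ℂ) * (z - w)) := by
      have h : ((‖z - w‖ ^ 2 : ℝ) : ℂ) = (z - w) * (starRingEnd ℂ) (z - w) := by
        rw [Complex.mul_conj, Complex.normSq_eq_norm_sq]
      rw [h]
      ring
    rw [this, Complex.re_ofReal_mul]
  have h5 := D.re _ (hop t ht).le
  rw [e1] at hslope
  simp only [Complex.ofReal_one, one_mul, add_sub_cancel, Complex.ofReal_zero, zero_mul, add_zero,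
    sub_zero, div_one] at hslope
  have h6 : ((starRingEnd ℂ) (z - w) * (D.h z - D.h w)).re =
      ((starRingEnd ℂ) (z - w) * D.h z).re - ((starRingEnd ℂ) (z - w) * D.h w).re := by
    rw [mul_sub, Complex.sub_re]
  rw [h6, ← hslope]
  nlinarith [sq_nonneg ‖z - w‖]

lemma expand (z w : ℂ) (hz : ‖z‖ ≤ 1) (hw : ‖w‖ ≤ 1) : D.c0 * ‖z - w‖ ≤ ‖D.h z - D.h w‖ := by
  rcases eq_or_ne z w with rfl | hne
  · simp
  have h := mean_val D z w hz hw
  have hpos : 0 < ‖z - w‖ := norm_pos_iff.2 (sub_ne_zero.2 hne)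
  have h1 : ((starRingEnd ℂ) (z - w) * (D.h z - D.h w)).re ≤ ‖z - w‖ * ‖D.h z - D.h w‖ := by
    refine (Complex.re_le_norm _).trans (le_of_eq ?_)
    rw [norm_mul, Complex.norm_conj]
  have h2 : ‖z - w‖ * (D.c0 * ‖z - w‖) ≤ ‖z - w‖ * ‖D.h z - D.h w‖ := by
    calc _ = D.c0 * ‖z - w‖ ^ 2 := by ring
      _ ≤ _ := h.trans h1
  exact le_of_mul_le_mul_left h2 hpos

lemma inj {z w : ℂ} (hz : ‖z‖ ≤ 1) (hw : ‖w‖ ≤ 1) (h : D.h z = D.h w) : z = w := by
  have h2 := expand D z w hz hw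
  rw [h, sub_self, norm_zero] at h2
  have h4 : ‖z - w‖ ≤ 0 := by
    by_contra hc
    push Not at hc
    have := mul_pos D.c0_pos hc
    linarith
  exact sub_eq_zero.1 (norm_le_zero_iff.1 h4)

lemma E_spec {t : ℂ} (ht : ∃ z : ℂ, ‖z‖ ≤ 1 ∧ D.h z = t) : ‖D.E t‖ ≤ 1 ∧ D.h (D.E t) = t := by
  have e : D.E t = Classical.choose ht := by
    unfold Disc.E
    rw [dif_pos ht]
  rw [e]
  exact Classical.choose_spec ht

lemma E_h {z : ℂ} (hz : ‖z‖ ≤ 1) : D.E (D.h z) = z := by
  have h := E_spec D (t := D.h z) ⟨z, hz, rfl⟩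
  exact inj D h.1 hz h.2

lemma lip {p q : ℂ} (hp : p ∈ D.h '' Metric.closedBall 0 1) (hq : q ∈ D.h '' Metric.closedBall 0 1) :
    ‖D.E p - D.E q‖ ≤ 1 / D.c0 * ‖p - q‖ := by
  obtain ⟨z, hz, rfl⟩ := hp
  obtain ⟨w, hw, rfl⟩ := hq
  have hz' : ‖z‖ ≤ 1 := by simpa using hz
  have hw' : ‖w‖ ≤ 1 := by simpa using hw
  rw [E_h D hz', E_h D hw', one_div, inv_mul_eq_div, le_div_iff₀ D.c0_pos, mul_comm]
  exact expand D z w hz' hw'

lemma contE : ContinuousOn D.E (D.h '' Metric.closedBall 0 1) := by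
  have hc := D.c0_pos
  have hL : LipschitzOnWith (Real.toNNReal (1 / D.c0)) D.E (D.h '' Metric.closedBall 0 1) := by
    apply LipschitzOnWith.of_dist_le_mul
    intro x hx y hy
    rw [dist_eq_norm, dist_eq_norm, Real.coe_toNNReal _ (by positivity)]
    exact lip D hx hy
  exact hL.continuousOn

lemma hd_ne {z : ℂ} (hz : ‖z‖ ≤ 1) : D.hd z ≠ 0 := by
  intro h
  have h2 := D.re z hz
  rw [h, Complex.zero_re] at h2
  linarith [D.c0_pos]

lemma diff_h : DifferentiableOn ℂ D.h (Metric.ball 0 1) := by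
  intro z hz
  exact (D.der z (by simpa using hz)).differentiableAt.differentiableWithinAt

lemma open_U : IsOpen D.U := by
  rw [isOpen_iff_mem_nhds]
  rintro p ⟨z, hz, rfl⟩
  have hz' : ‖z‖ < 1 := by simpa using hz
  have hb : Metric.ball (0 : ℂ) 1 ∈ 𝓝 z := Metric.isOpen_ball.mem_nhds hz
  have ha : AnalyticAt ℂ D.h z := (diff_h D).analyticAt hb
  have hs : HasStrictDerivAt D.h (deriv D.h z) z := ha.hasStrictDerivAt
  have hd' : deriv D.h z = D.hd z := (D.der z hz').deriv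
  rw [hd'] at hs
  have hm := hs.map_nhds_eq (hd_ne D hz'.le)
  rw [← hm]
  exact image_mem_map hb

open Classical in
/-- the lens function -/
def eL (p : ℂ) : ℂ := if p ∈ D.U then D.E p else 1

lemma U_sub : D.U ⊆ D.h '' Metric.closedBall 0 1 := image_mono Metric.ball_subset_closedBall

lemma eL_mem {p : ℂ} (hp : p ∈ D.U) : eL D p = D.E p := by
  unfold eL
  rw [if_pos hp]

lemma eL_off {p : ℂ} (hp : p ∉ D.U) : eL D p = 1 := by
  unfold eL
  rw [if_neg hp]

lemma h_mem {z : ℂ} (hz : ‖z‖ < 1) : D.h z ∈ D.U := ⟨z, by simpa using hz, rfl⟩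

lemma eL_h {z : ℂ} (hz : ‖z‖ < 1) : eL D (D.h z) = z := by
  rw [eL_mem D (h_mem D hz), E_h D hz.le]

lemma eL_spec {p : ℂ} (hp : p ∈ D.U) : ‖eL D p‖ < 1 ∧ D.h (eL D p) = p := by
  obtain ⟨z, hz, rfl⟩ := hp
  have hz' : ‖z‖ < 1 := by simpa using hz
  rw [eL_h D hz']
  exact ⟨hz', rfl⟩

lemma contAt {p : ℂ} (hp : p ∈ D.U) : ContinuousAt (eL D) p := by
  have hn : D.U ∈ 𝓝 p := (open_U D).mem_nhds hp
  have h1 : ContinuousAt D.E p := ((contE D).mono (U_sub D)).continuousAt hn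
  refine h1.congr ?_
  filter_upwards [hn] with q hq
  exact (eL_mem D hq).symm

lemma deriv_eL {p : ℂ} (hp : p ∈ D.U) : HasDerivAt (eL D) (1 / D.hd (eL D p)) p := by
  rw [one_div]
  have hlt := (eL_spec D hp).1
  refine HasDerivAt.of_local_left_inverse (contAt D hp) (D.der (eL D p) hlt) (hd_ne D hlt.le) ?_
  filter_upwards [(open_U D).mem_nhds hp] with q hq
  exact (eL_spec D hq).2

lemma level_eq {r : ℝ} (hr : r < 1) :
    {p : ℂ | ‖eL D p‖ ≤ r} = D.h '' Metric.closedBall 0 r := by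
  ext p
  constructor
  · intro hp
    simp only [Set.mem_ofPred_eq] at hp
    have hpW : p ∈ D.U := by
      by_contra h
      rw [eL_off D h, norm_one] at hp
      linarith
    exact ⟨eL D p, by simpa using hp, (eL_spec D hpW).2⟩
  · rintro ⟨z, hz, rfl⟩
    have hz' : ‖z‖ ≤ r := by simpa using hz
    simp only [Set.mem_ofPred_eq]
    rw [eL_h D (lt_of_le_of_lt hz' hr)]
    exact hz'

lemma level_compact {r : ℝ} (hr : r < 1) : IsCompact {p : ℂ | ‖eL D p‖ ≤ r} := by
  rw [level_eq D hr]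
  apply (isCompact_closedBall (0 : ℂ) r).image_of_continuousOn
  exact D.cont.mono (Metric.closedBall_subset_closedBall hr.le)

lemma norm_hd {z : ℂ} (hz : ‖z‖ ≤ 1) : D.c0 ≤ ‖D.hd z‖ :=
  (D.re z hz).trans ((le_abs_self _).trans (Complex.abs_re_le_norm _))

lemma exC : ∃ C : ℝ, ∀ z : ℂ, ‖z‖ < 1 → ‖D.h z‖ ≤ C * ‖z‖ := by
  obtain ⟨C, hC⟩ := (isCompact_closedBall (0 : ℂ) 1).exists_bound_of_continuousOn D.contd
  refine ⟨C, fun z hz => ?_⟩
  have h := (convex_ball (0 : ℂ) 1).norm_image_sub_le_of_norm_hasDerivWithin_le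
    (f := D.h) (f' := D.hd) (C := C) (x := 0) (y := z)
    (fun x hx => (D.der x (by simpa using hx)).hasDerivWithinAt)
    (fun x hx => hC x (Metric.ball_subset_closedBall hx)) (by simp) (by simpa using hz)
  rw [D.zero, sub_zero, sub_zero] at h
  exact h

/-- the lens -/
def lens : Lens where
  W := D.U
  e := eL D
  c0 := 1 / (D.hd 0).re
  C := Classical.choose (exC D)
  B := 1 / D.c0
  isOpen := open_U D
  zero_mem := ⟨0, by simp, D.zero⟩
  diff := fun p hp => (deriv_eL D hp).differentiableAt.differentiableWithinAt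
  lt := fun p hp => (eL_spec D hp).1
  off := fun p hp => eL_off D hp
  comp := fun r hr => level_compact D hr
  e_zero := by
    have h2 := eL_h D (z := 0) (by simp)
    rwa [D.zero] at h2
  c0_pos := by
    have h := D.re 0 (by simp)
    have h1 := D.c0_pos
    have h2 : 0 < (D.hd 0).re := lt_of_lt_of_le h1 h
    positivity
  deriv_zero := by
    have h0 : (0 : ℂ) ∈ D.U := ⟨0, by simp, D.zero⟩
    have h2 := eL_h D (z := 0) (by simp)
    rw [D.zero] at h2
    rw [(deriv_eL D h0).deriv, h2]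
    have h3 : D.hd 0 = (((D.hd 0).re : ℝ) : ℂ) := by
      apply Complex.ext
      · simp
      · simp [D.real0]
    rw [Complex.ofReal_div, Complex.ofReal_one, ← h3]
  hC := fun p hp => by
    have h := Classical.choose_spec (exC D) (eL D p) (eL_spec D hp).1
    rw [(eL_spec D hp).2] at h
    exact h
  hB := fun p hp => by
    rw [(deriv_eL D hp).deriv, norm_div, norm_one]
    exact one_div_le_one_div_of_le D.c0_pos (norm_hd D (eL_spec D hp).1.le)

end LENaux

open LENaux in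
theorem LEN : S_LEN := by
  intro D
  refine ⟨fun z w hz hw => expand D z w hz hw, open_U D, fun z hz => E_h D hz, contE D,
    lens D, rfl, fun z hz => eL_h D hz, ?_⟩
  intro z hz
  show deriv (eL D) (D.h z) = 1 / D.hd z
  rw [(deriv_eL D (h_mem D hz)).deriv, eL_h D hz]

end H356LP
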