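import Pool.Agent.Run7.h356.LP.Stm

/-!
Piece TRIG of the project of helper356 (MP_85210c_gt): generalised trigonometric functions.
-/

set_option autoImplicit false

noncomputable section

open MeasureTheory Filter Topology Set
open scoped BigOperators ENNReal

namespace Pool.Agent.Run7.h553.LP

open H356LP

/-! ### signed powers -/

theorem sp_zero (r : ℝ) : sp r 0 = 0 := by simp [sp]

theorem sp_neg (r x : ℝ) : sp r (-x) = - sp r x := by
  simp [sp, Real.sign_neg]

theorem sp_of_pos {r x : ℝ} (hx : 0 < x) : sp r x = x ^ r := by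
  simp [sp, Real.sign_of_pos hx, abs_of_pos hx]

theorem sp_of_neg {r x : ℝ} (hx : x < 0) : sp r x = -(-x) ^ r := by
  simp [sp, Real.sign_of_neg hx, abs_of_neg hx]

theorem abs_sp {r : ℝ} (hr : r ≠ 0) (x : ℝ) : |sp r x| = |x| ^ r := by
  rcases lt_trichotomy x 0 with hx | hx | hx
  · rw [sp_of_neg hx, abs_neg, abs_of_nonneg (Real.rpow_nonneg (by linarith) _), abs_of_neg hx]
  · subst hx; simp [sp_zero, Real.zero_rpow hr]
  · rw [sp_of_pos hx, abs_of_nonneg (Real.rpow_nonneg hx.le _), abs_of_pos hx]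

theorem sp_eq {r : ℝ} (hr : r ≠ 0) (x : ℝ) : sp r x = (max x 0) ^ r - (max (-x) 0) ^ r := by
  rcases lt_trichotomy x 0 with hx | hx | hx
  · rw [sp_of_neg hx, max_eq_right hx.le, max_eq_left (by linarith), Real.zero_rpow hr]; ring
  · subst hx; simp [sp_zero]
  · rw [sp_of_pos hx, max_eq_left hx.le, max_eq_right (by linarith), Real.zero_rpow hr]; ring

theorem sp_cont {r : ℝ} (hr : 0 < r) : Continuous (sp r) := by
  have : sp r = fun x => (max x 0) ^ r - (max (-x) 0) ^ r := funext (sp_eq hr.ne')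
  rw [this]
  exact ((continuous_id.max continuous_const).rpow_const (fun _ => Or.inr hr.le)).sub
    ((continuous_neg.max continuous_const).rpow_const (fun _ => Or.inr hr.le))

theorem sp_deriv {r x : ℝ} (hx : x ≠ 0) : HasDerivAt (sp r) (r * |x| ^ (r - 1)) x := by
  rcases lt_or_gt_of_ne hx with hx | hx
  · have h1 : HasDerivAt (fun y : ℝ => -(-y) ^ r) (r * |x| ^ (r - 1)) x := by
      have h2 := ((hasDerivAt_neg x).rpow_const (p := r) (Or.inl (by simpa using hx.ne))).neg
      refine h2.congr_deriv ?_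
      rw [abs_of_neg hx]; ring
    refine h1.congr_of_eventuallyEq ?_
    filter_upwards [Iio_mem_nhds hx] with y hy
    exact sp_of_neg hy
  · have h1 : HasDerivAt (fun y : ℝ => y ^ r) (r * |x| ^ (r - 1)) x := by
      have h2 := (hasDerivAt_id x).rpow_const (p := r) (Or.inl hx.ne')
      refine h2.congr_deriv ?_
      rw [abs_of_pos hx]; simp
    refine h1.congr_of_eventuallyEq ?_
    filter_upwards [Ioi_mem_nhds hx] with y hy
    exact sp_of_pos hy

/-! ### derivative off a countable set -/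

theorem deriv_off {f g : ℝ → ℝ} (hf : Continuous f) (hg : Continuous g) {Z : Set ℝ}
    (hZ : Z.Countable) (h : ∀ x, x ∉ Z → HasDerivAt f (g x) x) (x : ℝ) :
    HasDerivAt f (g x) x := by
  have e : f = fun u => f 0 + ∫ t in (0:ℝ)..u, g t := by
    funext u
    rw [integral_eq_of_hasDerivAt_off_countable f g hZ hf.continuousOn
      (fun y hy => h y hy.2) (hg.intervalIntegrable _ _)]
    ring
  have h1 : HasDerivAt (fun u => f 0 + ∫ t in (0:ℝ)..u, g t) (g x) x :=
    (intervalIntegral.integral_hasDerivAt_right (hg.intervalIntegrable _ _)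
      (hg.stronglyMeasurableAtFilter _ _) hg.continuousAt).const_add _
  rw [e]; exact h1

/-! ### the weight -/

/-- the weight -/
def ww (p q θ : ℝ) : ℝ := |Real.sin θ| ^ (2 / q - 1) * |Real.cos θ| ^ (2 / p - 1)

/-- the points `nπ/2` -/
def ZZ : Set ℝ := range (fun n : ℤ => (n : ℝ) * (Real.pi / 2))

theorem ZZ_countable : ZZ.Countable := countable_range _

theorem sc_ne {θ : ℝ} (h : θ ∉ ZZ) : Real.sin θ ≠ 0 ∧ Real.cos θ ≠ 0 := by
  by_contra hc
  have h0 : Real.sin (2 * θ) = 0 := by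
    rw [Real.sin_two_mul]
    by_cases h1 : Real.sin θ = 0
    · rw [h1]; ring
    · have h2 : Real.cos θ = 0 := by
        by_contra h3
        exact hc ⟨h1, h3⟩
      rw [h2]; ring
  obtain ⟨n, hn⟩ := Real.sin_eq_zero_iff.1 h0
  exact h ⟨n, by simp only; linarith⟩

section

variable {p q : ℝ}

theorem ww_per : Function.Periodic (ww p q) Real.pi := by
  intro θ; simp [ww, Real.sin_add_pi, Real.cos_add_pi]

theorem ww_neg (θ : ℝ) : ww p q (-θ) = ww p q θ := by simp [ww]

theorem ww_ref (θ : ℝ) : ww p q (Real.pi - θ) = ww p q θ := by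
  simp [ww, Real.sin_pi_sub, Real.cos_pi_sub]

theorem ww_nonneg (θ : ℝ) : 0 ≤ ww p q θ := by unfold ww; positivity

theorem ww_pos {θ : ℝ} (h : θ ∉ ZZ) : 0 < ww p q θ := by
  have h1 := abs_pos.2 (sc_ne h).1
  have h2 := abs_pos.2 (sc_ne h).2
  unfold ww; positivity

theorem ww_contAt {θ : ℝ} (h : θ ∉ ZZ) : ContinuousAt (ww p q) θ := by
  have h1 := (abs_pos.2 (sc_ne h).1).ne'
  have h2 := (abs_pos.2 (sc_ne h).2).ne'
  exact (Real.continuous_sin.abs.continuousAt.rpow_const (Or.inl h1)).mul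
    (Real.continuous_cos.abs.continuousAt.rpow_const (Or.inl h2))

theorem ww_meas : Measurable (ww p q) := by
  unfold ww
  exact ((Real.measurable_sin.abs).pow_const _).mul ((Real.measurable_cos.abs).pow_const _)

theorem ww_int (hB : S_BET) (hp : 1 < p) (hpq : Real.HolderConjugate p q) (a b : ℝ) :
    IntervalIntegrable (ww p q) volume a b := by
  have h1 : IntervalIntegrable (ww p q) volume 0 (Real.pi / 2) := (hB p q hp hpq).1
  have h2 : IntervalIntegrable (ww p q) volume (Real.pi / 2) Real.pi := by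
    have h3 := (h1.comp_sub_left Real.pi).symm
    simp only [ww_ref, sub_zero] at h3
    rwa [show Real.pi - Real.pi / 2 = Real.pi / 2 by ring] at h3
  exact ww_per.intervalIntegrable₀ Real.pi_pos.ne' (h1.trans h2) a b

/-- the constant -/
def lam (p q : ℝ) : ℝ := Real.pi / (Real.Gamma (1 / p) * Real.Gamma (1 / q))

theorem GG_pos (hp : 1 < p) (hpq : Real.HolderConjugate p q) :
    0 < Real.Gamma (1 / p) * Real.Gamma (1 / q) := by
  have h1 : 0 < p := by linarith
  have h2 : 0 < q := hpq.symm.pos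
  exact mul_pos (Real.Gamma_pos_of_pos (by positivity)) (Real.Gamma_pos_of_pos (by positivity))

theorem lam_pos (hp : 1 < p) (hpq : Real.HolderConjugate p q) : 0 < lam p q :=
  div_pos Real.pi_pos (GG_pos hp hpq)

/-- the primitive -/
def Pf (p q θ : ℝ) : ℝ := lam p q * ∫ t in (0:ℝ)..θ, ww p q t

theorem Pf_sub (hB : S_BET) (hp : 1 < p) (hpq : Real.HolderConjugate p q) (a b : ℝ) :
    Pf p q b - Pf p q a = lam p q * ∫ t in a..b, ww p q t := by
  unfold Pf
  rw [← mul_sub, intervalIntegral.integral_interval_sub_left (ww_int hB hp hpq _ _)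
    (ww_int hB hp hpq _ _)]

theorem Pf_cont (hB : S_BET) (hp : 1 < p) (hpq : Real.HolderConjugate p q) :
    Continuous (Pf p q) :=
  continuous_const.mul (intervalIntegral.continuous_primitive (fun a b => ww_int hB hp hpq a b) 0)

theorem Pf_mono (hB : S_BET) (hp : 1 < p) (hpq : Real.HolderConjugate p q) :
    StrictMono (Pf p q) := by
  intro a b hab
  have h0 := Pf_sub hB hp hpq a b
  have h1 : 0 < ∫ t in a..b, ww p q t := by
    rw [intervalIntegral.integral_pos_iff_support_of_nonneg_ae (ae_of_all _ (fun t => ww_nonneg t))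
      (ww_int hB hp hpq a b)]
    refine ⟨hab, ?_⟩
    have h2 : volume (Ioc a b \ ZZ) = volume (Ioc a b) :=
      measure_sdiff_null (ZZ_countable.measure_zero _)
    have h3 : 0 < volume (Ioc a b) := by simp [hab]
    rw [← h2] at h3
    refine h3.trans_le (measure_mono ?_)
    intro x hx
    exact ⟨(ww_pos hx.2).ne', hx.1⟩
  have h2 := mul_pos (lam_pos hp hpq) h1
  linarith

theorem Pf_zero : Pf p q 0 = 0 := by simp [Pf]

theorem Pf_half (hB : S_BET) (hp : 1 < p) (hpq : Real.HolderConjugate p q) :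
    Pf p q (Real.pi / 2) = Real.pi / 2 := by
  have h := (hB p q hp hpq).2
  have h1 : ∫ t in (0:ℝ)..(Real.pi / 2), ww p q t =
    Real.Gamma (1 / p) * Real.Gamma (1 / q) / 2 := h
  have h2 := (GG_pos hp hpq).ne'
  unfold Pf lam
  rw [h1]
  generalize Real.Gamma (1 / p) * Real.Gamma (1 / q) = G at h2 ⊢
  field_simp

theorem Pf_pi (hB : S_BET) (hp : 1 < p) (hpq : Real.HolderConjugate p q) :
    Pf p q Real.pi = Real.pi := by
  have h0 := Pf_sub hB hp hpq (Real.pi / 2) Real.pi
  have h1 : ∫ t in (Real.pi / 2)..Real.pi, ww p q t = ∫ t in (0:ℝ)..(Real.pi / 2), ww p q t := by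
    have h2 := intervalIntegral.integral_comp_sub_left (a := 0) (b := Real.pi / 2) (ww p q) Real.pi
    simp only [ww_ref, sub_zero] at h2
    rw [h2, show Real.pi - Real.pi / 2 = Real.pi / 2 by ring]
  have h3 := Pf_half hB hp hpq
  rw [h1, show lam p q * ∫ t in (0:ℝ)..(Real.pi / 2), ww p q t = Pf p q (Real.pi / 2) from rfl,
    h3] at h0
  linarith

theorem Pf_add_pi (hB : S_BET) (hp : 1 < p) (hpq : Real.HolderConjugate p q) (θ : ℝ) :
    Pf p q (θ + Real.pi) = Pf p q θ + Real.pi := by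
  have h0 := Pf_sub hB hp hpq θ (θ + Real.pi)
  have h1 := (ww_per (p := p) (q := q)).intervalIntegral_add_eq θ 0
  rw [zero_add] at h1
  rw [h1, show lam p q * ∫ t in (0:ℝ)..Real.pi, ww p q t = Pf p q Real.pi from rfl,
    Pf_pi hB hp hpq] at h0
  linarith

theorem Pf_neg (θ : ℝ) : Pf p q (-θ) = - Pf p q θ := by
  unfold Pf
  have h1 := intervalIntegral.integral_comp_neg (a := 0) (b := θ) (ww p q)
  simp only [ww_neg, neg_zero] at h1
  rw [h1, intervalIntegral.integral_symm]
  ring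

theorem Pf_add_int (hB : S_BET) (hp : 1 < p) (hpq : Real.HolderConjugate p q) (θ : ℝ) (n : ℤ) :
    Pf p q (θ + n * Real.pi) = Pf p q θ + n * Real.pi := by
  induction n using Int.induction_on with
  | zero => simp
  | succ i hi =>
    have := Pf_add_pi hB hp hpq (θ + i * Real.pi)
    push_cast at hi ⊢
    rw [show θ + ((i:ℝ) + 1) * Real.pi = θ + i * Real.pi + Real.pi by ring, this, hi]; ring
  | pred i hi =>
    have := Pf_add_pi hB hp hpq (θ + (-(i:ℝ) - 1) * Real.pi)
    push_cast at hi ⊢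
    rw [show θ + (-(i:ℝ) - 1) * Real.pi + Real.pi = θ + -(i:ℝ) * Real.pi by ring, hi] at this
    linarith

theorem Pf_ZZ (hB : S_BET) (hp : 1 < p) (hpq : Real.HolderConjugate p q) {θ : ℝ} (h : θ ∈ ZZ) :
    Pf p q θ = θ := by
  obtain ⟨n, rfl⟩ := h
  simp only
  rcases Int.even_or_odd' n with ⟨m, rfl | rfl⟩
  · have := Pf_add_int hB hp hpq 0 m
    simp only [Pf_zero, zero_add] at this
    push_cast
    rw [show 2 * (m:ℝ) * (Real.pi / 2) = m * Real.pi by ring, this]
  · have := Pf_add_int hB hp hpq (Real.pi / 2) m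
    rw [Pf_half hB hp hpq] at this
    push_cast
    rw [show (2 * (m:ℝ) + 1) * (Real.pi / 2) = Real.pi / 2 + m * Real.pi by ring, this]

theorem Pf_surj (hB : S_BET) (hp : 1 < p) (hpq : Real.HolderConjugate p q) :
    Function.Surjective (Pf p q) := by
  intro y
  have key : ∀ n : ℤ, Pf p q (n * Real.pi) = n * Real.pi := by
    intro n
    have := Pf_add_int hB hp hpq 0 n
    simpa only [Pf_zero, zero_add] using this
  refine mem_range_of_exists_le_of_exists_ge (Pf_cont hB hp hpq) ⟨⌊y / Real.pi⌋ * Real.pi, ?_⟩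
    ⟨⌈y / Real.pi⌉ * Real.pi, ?_⟩
  · rw [key]
    have := Int.floor_le (y / Real.pi)
    rwa [le_div_iff₀ Real.pi_pos] at this
  · rw [key]
    have := Int.le_ceil (y / Real.pi)
    rwa [div_le_iff₀ Real.pi_pos] at this

theorem Pf_deriv (hB : S_BET) (hp : 1 < p) (hpq : Real.HolderConjugate p q) {θ : ℝ}
    (h : θ ∉ ZZ) : HasDerivAt (Pf p q) (lam p q * ww p q θ) θ :=
  (intervalIntegral.integral_hasDerivAt_right (ww_int hB hp hpq _ _)
    (ww_meas.stronglyMeasurable.stronglyMeasurableAtFilter) (ww_contAt h)).const_mul _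

/-- the inverse of the primitive -/
theorem exists_Th (hB : S_BET) (hp : 1 < p) (hpq : Real.HolderConjugate p q) :
    ∃ Θ : ℝ → ℝ, Continuous Θ ∧ StrictMono Θ ∧ (∀ φ, Θ (-φ) = - Θ φ) ∧
      (∀ φ, Θ (φ + Real.pi) = Θ φ + Real.pi) ∧ Θ (Real.pi / 2) = Real.pi / 2 ∧ Θ 0 = 0 ∧
      ∀ φ, φ ∉ ZZ → Θ φ ∉ ZZ ∧ HasDerivAt Θ (lam p q * ww p q (Θ φ))⁻¹ φ := by
  set e := StrictMono.orderIsoOfSurjective (Pf p q) (Pf_mono hB hp hpq) (Pf_surj hB hp hpq)
    with he
  have h1 : ∀ φ, Pf p q (e.symm φ) = φ := fun φ => e.apply_symm_apply φ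
  have inj := (Pf_mono hB hp hpq).injective
  have hc : Continuous e.symm := e.symm.continuous
  refine ⟨e.symm, hc, e.symm.strictMono, ?_, ?_, ?_, ?_, ?_⟩
  · intro φ; apply inj; rw [h1, Pf_neg, h1]
  · intro φ; apply inj; rw [h1, Pf_add_pi hB hp hpq, h1]
  · apply inj; rw [h1, Pf_half hB hp hpq]
  · apply inj; rw [h1, Pf_zero]
  · intro φ hφ
    have h2 : e.symm φ ∉ ZZ := by
      intro h3
      have h4 := Pf_ZZ hB hp hpq h3
      rw [h1] at h4
      exact hφ (h4 ▸ h3)
    exact ⟨h2, HasDerivAt.of_local_left_inverse hc.continuousAt (Pf_deriv hB hp hpq h2)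
      (mul_pos (lam_pos hp hpq) (ww_pos h2)).ne' (Eventually.of_forall h1)⟩

/-! ### the constants -/

theorem AA_pos (hp : 1 < p) (hpq : Real.HolderConjugate p q) : 0 < AA p q := by
  have h1 : 0 < p := by linarith
  have h2 : 0 < q := hpq.symm.pos
  have h3 : 0 < Real.Gamma (1 / p + 1) := Real.Gamma_pos_of_pos (by positivity)
  have h4 : 0 < Real.Gamma (1 / q + 1) := Real.Gamma_pos_of_pos (by positivity)
  unfold AA; positivity

theorem kk1 (hp : 1 < p) (hpq : Real.HolderConjugate p q) :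
    AA p q / (2 * Real.pi) * q ^ (1 / p) = p ^ (1 / p) * (2 / p) / lam p q := by
  have h1 : 0 < p := by linarith
  have h2 : 0 < q := hpq.symm.pos
  have h3 : q ^ (1 / q) * q ^ (1 / p) = q := by
    rw [← Real.rpow_add h2, one_div, one_div, add_comm, hpq.inv_add_inv_eq_one, Real.rpow_one]
  have h4 := Real.pi_pos
  have h5 := (GG_pos hp hpq).ne'
  have e1 := Real.Gamma_add_one (s := 1 / p) (by positivity)
  have e2 := Real.Gamma_add_one (s := 1 / q) (by positivity)
  unfold AA lam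
  rw [e1, e2]
  have h6 : q ^ (1 / p) = q / q ^ (1 / q) := by
    rw [eq_div_iff (Real.rpow_pos_of_pos h2 _).ne', mul_comm, h3]
  have h7 := (Real.rpow_pos_of_pos h2 (1 / q)).ne'
  rw [h6]
  generalize q ^ (1 / q) = Q at h7 ⊢
  generalize Real.Gamma (1 / q) = G1 at h5 ⊢
  generalize Real.Gamma (1 / p) = G2 at h5 ⊢
  generalize p ^ (1 / p) = P
  have h8 : G1 ≠ 0 := right_ne_zero_of_mul h5
  have h9 : G2 ≠ 0 := left_ne_zero_of_mul h5
  field_simp

theorem kk2 (_hp : 1 < p) (hpq : Real.HolderConjugate p q) :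
    AA p q / (2 * Real.pi) * p ^ (1 / q) = q ^ (1 / q) * (2 / q) / lam p q := by
  have hq : 1 < q := hpq.symm.lt
  have h := kk1 hq hpq.symm
  have e1 : AA q p = AA p q := by unfold AA; ring
  have e2 : lam q p = lam p q := by unfold lam; rw [mul_comm (Real.Gamma (1 / q))]
  rw [e1, e2] at h
  exact h

theorem sp_comp {A : ℝ} (hA : 0 < A) (r t s : ℝ) : sp r (A * sp t s) = A ^ r * sp (t * r) s := by
  rcases lt_trichotomy s 0 with hs | hs | hs
  · have h0 : 0 < -s := by linarith
    have h1 : 0 < (-s) ^ t := Real.rpow_pos_of_pos h0 _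
    rw [sp_of_neg hs, mul_neg, sp_neg, sp_of_pos (mul_pos hA h1), sp_of_neg hs,
      Real.mul_rpow hA.le h1.le, ← Real.rpow_mul h0.le]
    ring
  · subst hs; simp [sp_zero]
  · have h1 : 0 < s ^ t := Real.rpow_pos_of_pos hs _
    rw [sp_of_pos hs, sp_of_pos (mul_pos hA h1), sp_of_pos hs,
      Real.mul_rpow hA.le h1.le, ← Real.rpow_mul hs.le]

theorem sp_div {s : ℝ} (hs : s ≠ 0) (a : ℝ) : s * (|s| ^ (a - 1))⁻¹ = sp (2 - a) s := by
  rcases lt_or_gt_of_ne hs with hs | hs
  · have h0 : 0 < -s := by linarith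
    rw [sp_of_neg hs, abs_of_neg hs, ← Real.rpow_neg h0.le]
    have : (-s) ^ (2 - a) = (-s) ^ (1:ℝ) * (-s) ^ (-(a - 1)) := by
      rw [← Real.rpow_add h0]; congr 1; ring
    rw [this, Real.rpow_one]; ring
  · rw [sp_of_pos hs, abs_of_pos hs, ← Real.rpow_neg hs.le]
    have : s ^ (2 - a) = s ^ (1:ℝ) * s ^ (-(a - 1)) := by
      rw [← Real.rpow_add hs]; congr 1; ring
    rw [this, Real.rpow_one]

theorem main_alg {a b s x L K Pp Qr r A : ℝ} (hs : s ≠ 0) (hx : x ≠ 0)
    (hA : 0 < A) (hr : b * r = 2 - b) (hK : K * A ^ r = Pp * a / L) (hL : L ≠ 0) (hQ : Qr = A) :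
    Pp * (a * |x| ^ (a - 1) * (s * (L * (|s| ^ (b - 1) * |x| ^ (a - 1)))⁻¹)) =
      K * sp r (Qr * sp b s) := by
  subst hQ
  rw [sp_comp hA, hr, ← sp_div hs, ← mul_assoc K, hK]
  have h1 : |x| ^ (a - 1) ≠ 0 := (Real.rpow_pos_of_pos (abs_pos.2 hx) _).ne'
  have h2 : |s| ^ (b - 1) ≠ 0 := (Real.rpow_pos_of_pos (abs_pos.2 hs) _).ne'
  field_simp

/-! ### the theorem -/

theorem TRIG (hB : S_BET) : S_TRIG := by
  intro p q hp _ hpq
  have hp0 : 0 < p := by linarith
  have hq0 : 0 < q := hpq.symm.pos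
  have hq1 : 1 < q := hpq.symm.lt
  obtain ⟨Θ, hc, hm, ho, hpi, hh, h0, hd⟩ := exists_Th hB hp hpq
  set P := p ^ (1 / p) with hP
  set Q := q ^ (1 / q) with hQ
  have hPp : 0 < P := Real.rpow_pos_of_pos hp0 _
  have hQp : 0 < Q := Real.rpow_pos_of_pos hq0 _
  set k := AA p q / (2 * Real.pi) with hk
  have hinv := hpq.inv_add_inv_eq_one
  have ep : 2 / p * (p - 1) = 2 - 2 / p := by field_simp
  have eq' : 2 / q * (q - 1) = 2 - 2 / q := by field_simp
  have hPr : P ^ (p - 1) = p ^ (1 / q) := by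
    rw [hP, ← Real.rpow_mul hp0.le]
    congr 1
    have : 1 / q = 1 - 1 / p := by rw [one_div, one_div]; linarith
    rw [this]; field_simp
  have hQr : Q ^ (q - 1) = q ^ (1 / p) := by
    rw [hQ, ← Real.rpow_mul hq0.le]
    congr 1
    have : 1 / p = 1 - 1 / q := by rw [one_div, one_div]; linarith
    rw [this]; field_simp
  have hlam := (lam_pos hp hpq).ne'
  have hcc : Continuous fun φ => P * sp (2 / p) (Real.cos (Θ φ)) :=
    continuous_const.mul ((sp_cont (by positivity)).comp (Real.continuous_cos.comp hc))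
  have hSS : Continuous fun φ => Q * sp (2 / q) (Real.sin (Θ φ)) :=
    continuous_const.mul ((sp_cont (by positivity)).comp (Real.continuous_sin.comp hc))
  refine ⟨{ c := fun φ => P * sp (2 / p) (Real.cos (Θ φ))
            S := fun φ => Q * sp (2 / q) (Real.sin (Θ φ))
            k := k
            k_pos := div_pos (AA_pos hp hpq) (by positivity)
            area := by rw [hk]; field_simp
            dc := ?_
            dS := ?_
            ham := ?_
            even := ?_
            odd := ?_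
            cpi := ?_
            Spi := ?_
            cpos := ?_
            Spos := ?_ }⟩
  · refine deriv_off hcc ?_ ZZ_countable ?_
    · exact (continuous_const.mul ((sp_cont (by linarith)).comp hSS)).neg
    · intro φ hφ
      obtain ⟨h1, h2⟩ := hd φ hφ
      obtain ⟨h3, h4⟩ := sc_ne h1
      have h5 := ((sp_deriv (r := 2 / p) h4).comp φ
        ((Real.hasDerivAt_cos (Θ φ)).comp φ h2)).const_mul P
      refine h5.congr_deriv ?_
      have h6 := main_alg (a := 2 / p) (b := 2 / q) (L := lam p q) (K := k) (Pp := P) (Qr := Q)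
        (r := q - 1) (A := Q) h3 h4 hQp eq' (by rw [hQr]; exact kk1 hp hpq) hlam rfl
      rw [← h6]
      unfold ww
      ring
  · refine deriv_off hSS ?_ ZZ_countable ?_
    · exact (continuous_const.mul ((sp_cont (by linarith)).comp hcc))
    · intro φ hφ
      obtain ⟨h1, h2⟩ := hd φ hφ
      obtain ⟨h3, h4⟩ := sc_ne h1
      have h5 := ((sp_deriv (r := 2 / q) h3).comp φ
        ((Real.hasDerivAt_sin (Θ φ)).comp φ h2)).const_mul Q
      refine h5.congr_deriv ?_
      have h6 := main_alg (a := 2 / q) (b := 2 / p) (L := lam p q) (K := k) (Pp := Q) (Qr := P)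
        (r := p - 1) (A := P) h4 h3 hPp ep (by rw [hPr]; exact kk2 hp hpq) hlam rfl
      rw [← h6]
      unfold ww
      ring
  · intro φ
    have e1 : |P * sp (2 / p) (Real.cos (Θ φ))| ^ p = p * Real.cos (Θ φ) ^ 2 := by
      rw [abs_mul, abs_of_pos hPp, abs_sp (by positivity), Real.mul_rpow hPp.le (by positivity), hP,
        ← Real.rpow_mul hp0.le, ← Real.rpow_mul (abs_nonneg _), one_div, inv_mul_cancel₀ hp0.ne',
        Real.rpow_one, div_mul_cancel₀ _ hp0.ne']
      congr 1
      rw [show (2:ℝ) = ((2:ℕ):ℝ) by norm_num, Real.rpow_natCast, sq_abs]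
    have e2 : |Q * sp (2 / q) (Real.sin (Θ φ))| ^ q = q * Real.sin (Θ φ) ^ 2 := by
      rw [abs_mul, abs_of_pos hQp, abs_sp (by positivity), Real.mul_rpow hQp.le (by positivity), hQ,
        ← Real.rpow_mul hq0.le, ← Real.rpow_mul (abs_nonneg _), one_div, inv_mul_cancel₀ hq0.ne',
        Real.rpow_one, div_mul_cancel₀ _ hq0.ne']
      congr 1
      rw [show (2:ℝ) = ((2:ℕ):ℝ) by norm_num, Real.rpow_natCast, sq_abs]
    simp only [e1, e2]
    have := Real.sin_sq_add_cos_sq (Θ φ)
    field_simp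
    linarith
  · intro φ; simp only [ho, Real.cos_neg]
  · intro φ; simp only [ho, Real.sin_neg, sp_neg]; ring
  · intro φ; simp only [hpi, Real.cos_add_pi, sp_neg]; ring
  · intro φ; simp only [hpi, Real.sin_add_pi, sp_neg]; ring
  · intro φ hφ
    rw [abs_lt] at hφ
    have h1 := hm hφ.1
    have h2 := hm hφ.2
    rw [ho, hh] at h1
    rw [hh] at h2
    have h3 := Real.cos_pos_of_mem_Ioo ⟨h1, h2⟩
    rw [sp_of_pos h3]
    positivity
  · intro φ h1 h2
    have h3 := hm h1
    have h4 := hm h2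
    rw [h0] at h3
    have h5 : Θ Real.pi = Real.pi := by
      have := hpi 0
      rwa [zero_add, h0, zero_add] at this
    rw [h5] at h4
    have h6 := Real.sin_pos_of_pos_of_lt_pi h3 h4
    rw [sp_of_pos h6]
    positivity

end

end Pool.Agent.Run7.h553.LP
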