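import Pool.Agent.Run7.h356.LP.Asm
import Pool.Agent.Run7.h356.LP.CCA
import Pool.Agent.Run7.h356.LP.LEN
import Pool.Agent.Run7.h304.LP.BET
import Pool.Agent.Run7.h304.LP.PI
import Pool.Agent.Run7.h304.LP.SP
import Pool.Agent.Run7.h356.LP.TRIG
import Pool.Agent.Run7.h270.LP.LPN
import Pool.Agent.Run7.h270.LP.MID
import Pool.Agent.Run7.h676.LP.POSB
import Pool.Agent.Run7.h921.LP.PSH
import Pool.Agent.Run7.h921.LP.RS
import Pool.Agent.Run7.h921.LP.VOL
import Pool.Agent.Run7.h382.LP.PSR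
import Pool.Agent.Run7.h382.LP.POSA
import Pool.Agent.Run7.h639.LP.FRO
import Pool.Agent.Run7.h639.LP.CC
import Pool.Agent.Run7.h255.LP.STA
import Pool.Agent.Run7.h255.LP.VVV
import Pool.Agent.Run7.h882.LP.FOUR
import Pool.Agent.Run7.h160.LP.ZF
import Pool.Agent.Run7.h160.LP.FIN
import Pool.Agent.Run7.h669.LP.APX
import Pool.Agent.Run7.h760.LP.CHG
import Pool.Agent.H712R2.MA.A1
import Pool.Agent.H712R2.MA.A2
import Pool.Agent.H712R2.MA.A3
import Pool.Agent.H712R2.MA.A4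
import Pool.Agent.H712R2.MA.P
import Pool.Agent.H712R2.MA.C0
import Pool.Agent.H712R2.MA.C1
import Pool.Agent.H712R2.MA.C2
import Pool.Agent.H712R2.MA.C3
import Pool.Agent.H712R2.MA.C4
import Pool.Agent.H712R2.MA.C5
import Pool.Agent.H712R2.MA.C6
import Pool.Agent.H712R2.MA.S

/-!
All the pieces together: volume product of subspaces of `L_p`, `1 < p < 2`.

Pieces: helper304 (BET, PI, SP), helper553 (TRIG), helper270 (LPN, MID, MAIN), helper676 (POSB),
helper921 (PSH, RS, VOL), helper382 (PSR, POSA), helper468 (LEN), helper639 (FRO, CC),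
helper255 (STA, VVV), helper882 (FOUR), helper160 (ZF, FIN), helper669 (APX), helper760 (CHG),
helper356 (CCA, DAT, assembly).  The file uses the library `H712R2/MA` of the starting files.
-/

set_option autoImplicit false

noncomputable section

open MeasureTheory Filter Topology Set
open scoped BigOperators Matrix ENNReal

namespace H356LP

theorem t_C6 : H712MA.S_C6 :=
  H712MA.C6 (H712MA.C2 H712MA.P (H712MA.C1 H712MA.P H712MA.C0 H712MA.A4) H712MA.A1) H712MA.C3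
    (H712MA.C4 H712MA.C0 H712MA.A2 H712MA.A4) H712MA.C5

theorem t_VVV : S_VVV :=
  Run7.h255.LPV.t_VVV LEN (Run7.h255.LPS.t_STA LEN)

theorem t_DAT : S_DAT :=
  DAT (Pool.Agent.Run7.h553.LP.TRIG Pool.Agent.Run7.h304.LP.BET) Run7.h882.LP.FOUR
    Run7.h382.LP.PSR (Run7.h382.LP.POSA Run7.h382.LP.PSR) (Run7.h676.LP.POSB Run7.h382.LP.PSR)
    LEN t_VVV Run7.h921.LP.PSH (Run7.h639.LP.FRO t_VVV) (Run7.h760.LP.CHG t_VVV)

theorem t_CC : S_CC :=
  Run7.h639.LP.CC (CCA t_C6 H160LP.ZF Pool.Agent.Run7.h304.LP.PI Pool.Agent.Run7.h304.LP.SPn.SP)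
    H160LP.ZF H712MA.S

theorem t_MAIN : S_MAIN :=
  Run7.h270.LP.MAIN (Run7.h270.LP.MID t_CC H160LP.ZF Pool.Agent.Run7.h304.LP.PI)
    (Run7.h921.LP.RS H712MA.A3)

theorem t_FIN : S_FIN := H160LP.FIN t_DAT t_MAIN Run7.h921.LP.VOL

end H356LP
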