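import Pool.Agent.Run7.h356.LP.Stm

/-!
Assembly of the one-variable data and of the final theorem.
-/

set_option autoImplicit false

noncomputable section

open MeasureTheory Filter Topology Set
open scoped BigOperators Matrix ENNReal

namespace H356LP

open H712MA

theorem ee_norm (φ : ℝ) : ‖ee φ‖ = 1 := by
  unfold ee
  exact Complex.norm_exp_ofReal_mul_I φ

/-- all the one-variable data -/
theorem DAT (hT : S_TRIG) (hF : S_FOUR) (hPR : S_PSR) (hA : S_POSA) (hB : S_POSB) (hL : S_LEN)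
    (hV : S_VVV) (hP : S_PSH) (hFR : S_FRO) (hC : S_CHG) : S_DAT := by
  intro p q hp1 hp2 hpq
  obtain ⟨T⟩ := hT p q hp1 hp2 hpq
  obtain ⟨a, ha1, ha2, ha3, ha4⟩ := hF p q hp1 hp2 hpq T
  obtain ⟨A1, A2, A3⟩ := hA p q hp1 hp2 hpq T a ha1 ha2 ha3
  obtain ⟨D, hDh⟩ := hB a ha1 ha2 ha4 A1 A2 A3
  have hre : ∀ φ : ℝ, (D.h (ee φ)).re = T.c φ := by
    intro φ
    rw [hDh]
    exact ((hPR a ha1 ha2).2.2.2.2.2.2.2.2.2.2.2.2.2 φ).unique (ha3 φ)
  obtain ⟨-, hUo, -, -, L, hLW, hLe, hLd⟩ := hL D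
  have hp0 : 0 < p := by linarith
  obtain ⟨V1, V2, V3, V4, V5, V6, V7⟩ := hV D p hp0
  obtain ⟨P1, P2⟩ := hP D L hLW hLe hLd
  obtain ⟨C1, C2, C3⟩ := hC D p T.k hp1 hp2 T.k_pos
  -- measurable version of `h`
  set H : ℂ → ℂ := (Metric.closedBall (0 : ℂ) 1).indicator D.h with hH
  have hHeq : ∀ z : ℂ, ‖z‖ ≤ 1 → H z = D.h z := by
    intro z hz
    rw [hH, indicator_of_mem (by rw [Metric.mem_closedBall, dist_zero_right]; exact hz)]
  have hHe : ∀ φ : ℝ, H (ee φ) = D.h (ee φ) := fun φ => hHeq _ (ee_norm φ).le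
  have hnv : ∀ (m : ℕ) (v φ : ℝ), 0 < v → v < 1 →
      ‖((v ^ (1 / (2 * (m : ℝ))) : ℝ) : ℂ) * ee φ‖ ≤ 1 := by
    intro m v φ h0 h1
    rw [norm_mul, ee_norm, mul_one, Complex.norm_real, Real.norm_of_nonneg (by positivity)]
    exact Real.rpow_le_one h0.le h1.le (by positivity)
  have hHv : ∀ (m : ℕ) (v φ : ℝ), 0 < v → v < 1 →
      H (((v ^ (1 / (2 * (m : ℝ))) : ℝ) : ℂ) * ee φ) =
        D.h (((v ^ (1 / (2 * (m : ℝ))) : ℝ) : ℂ) * ee φ) :=
    fun m v φ h0 h1 => hHeq _ (hnv m v φ h0 h1)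
  refine ⟨{
    L := L
    h := H
    k := T.k
    k_pos := T.k_pos
    V := D.V p
    F := D.F p q T.S
    rho := D.rho p T.k
    cont := ?_
    hmeas := ?_
    push := ?_
    nrm := ?_
    Vcont := V2
    Vnn := V3
    Vlt := ?_
    VT := ?_
    rmeas := C1
    rnn := C2
    chg := ?_
    Fder := fun x y hx => (hFR p q hp1 hp2 hpq T D hre x y hx).1
    rpos := fun x y hx => (hFR p q hp1 hp2 hpq T D hre x y hx).2.1
    VF := fun x y hx => (hFR p q hp1 hp2 hpq T D hre x y hx).2.2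
  }, ?_⟩
  · exact D.cont.congr fun z hz => hHeq z (by
      rw [Metric.mem_closedBall, dist_zero_right] at hz; exact hz)
  · classical
    rw [hH, ← piecewise_eq_indicator]
    exact ContinuousOn.measurable_piecewise D.cont continuousOn_const
      Metric.isClosed_closedBall.measurableSet
  · intro m hm G hG
    rw [P1 m hm G hG]
    congr 1
    refine setLIntegral_congr_fun measurableSet_Ioo fun v hv => ?_
    refine lintegral_congr fun φ => ?_
    rw [hHv m v φ hv.1 hv.2]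
  · intro m hm v φ h0 h1
    rw [hHv m v φ h0 h1]
    exact P2 m hm v φ h0 h1
  · intro t s hs
    rw [hLW]
    exact V1 t s hs
  · intro s φ hs
    rw [hHe]
    exact (V4 s (ee φ) hs (ee_norm φ)).1
  · intro G hG
    simp only [hHe]
    exact C3 G hG
  · exact T.area

/-- the final theorem -/
theorem FINAL (hD : S_FIN) (hN : S_LPN) (hX : S_APX) :
    ∀ (n : ℕ) (p : ℝ), 1 < p → p < 2 →
    ∀ f : Fin n → Lp ℝ (ENNReal.ofReal p) ((volume : Measure ℝ).restrict (Icc (0:ℝ) 1)),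
    LinearIndependent ℝ f →
    volume {x : Fin n → ℝ | ∑ i, |x i| ^ p ≤ 1} *
      volume {y : Fin n → ℝ | ∀ x : Fin n → ℝ, ∑ i, |x i| ^ p ≤ 1 → ∑ i, x i * y i ≤ 1} ≤
    volume {x : Fin n → ℝ | ‖∑ i, x i • f i‖ ≤ 1} *
      volume {y : Fin n → ℝ | ∀ x : Fin n → ℝ,
        ‖∑ i, x i • f i‖ ≤ 1 → ∑ i, x i * y i ≤ 1} := by
  intro n p hp1 hp2 f hf
  have hpq : Real.HolderConjugate p (p / (p - 1)) := Real.HolderConjugate.conjExponent hp1
  set q := p / (p - 1) with hq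
  have h1 := hN p q hp1 hpq n
  set P : ℝ≥0∞ := volume {x : Fin n → ℝ | ‖∑ i, x i • f i‖ ≤ 1} *
      volume (PP {x : Fin n → ℝ | ‖∑ i, x i • f i‖ ≤ 1}) with hP
  change volume {x : Fin n → ℝ | ∑ i, |x i| ^ p ≤ 1} *
    volume (PP {x : Fin n → ℝ | ∑ i, |x i| ^ p ≤ 1}) ≤ P
  refine h1.trans ?_
  have h2 : ∀ ε : ℝ, 0 < ε → ENNReal.ofReal (((2 * Real.Gamma (1 / p + 1)) ^ n /
      Real.Gamma (n / p + 1)) * ((2 * Real.Gamma (1 / q + 1)) ^ n / Real.Gamma (n / q + 1))) ≤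
      ENNReal.ofReal (1 + ε) * P := by
    intro ε hε
    obtain ⟨κ, _, l, hl1, hl2, hl3⟩ := hX n p hp1 f hf ε hε
    exact (hD p q hp1 hp2 hpq κ n l hl1 hl2).trans hl3
  rcases eq_or_ne P ∞ with hPt | hPt
  · rw [hPt]; exact le_top
  have hc : Tendsto (fun ε : ℝ => ENNReal.ofReal (1 + ε) * P) (𝓝[>] 0) (𝓝 (ENNReal.ofReal (1 + 0) * P)) := by
    refine ENNReal.Tendsto.mul_const ?_ (Or.inr hPt)
    have : Continuous fun ε : ℝ => ENNReal.ofReal (1 + ε) :=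
      ENNReal.continuous_ofReal.comp (by fun_prop)
    exact (this.tendsto 0).mono_left nhdsWithin_le_nhds
  rw [add_zero, ENNReal.ofReal_one, one_mul] at hc
  refine ge_of_tendsto hc ?_
  filter_upwards [self_mem_nhdsWithin] with ε hε
  exact h2 ε hε

end H356LP
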