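import Pool.Agent.H712R2.MA.Stm

/-!
# Volume product of subspaces of `L_p`, `1 < p < 2` (problem MP_85210c_gt, statement S13483)

Definitions and closed statements (`Prop`s) of all the pieces.  Piece `X` proves
`theorem X : S_X` in `Pool/Agent/Run7/h356/LP/X.lean`, importing this file only
(`Assembly.lean` combines them).
-/

set_option autoImplicit false

noncomputable section

open MeasureTheory Filter Topology Set
open scoped BigOperators Matrix ENNReal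

namespace H356LP

open H712MA

/-! ## one variable -/

/-- signed power `sgn(x) |x|^r` -/
def sp (r x : ℝ) : ℝ := Real.sign x * |x| ^ r

/-- the number `∫ e^{-|x|^p/p} dx ∫ e^{-|y|^q/q} dy` -/
def AA (p q : ℝ) : ℝ :=
  (2 * p ^ (1 / p) * Real.Gamma (1 / p + 1)) * (2 * q ^ (1 / q) * Real.Gamma (1 / q + 1))

/-- generalised trigonometric functions: the curve `|x|^p/p + |y|^q/q = 1`, parametrised
proportionally to area -/
structure Trig (p q : ℝ) where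
  c : ℝ → ℝ
  S : ℝ → ℝ
  k : ℝ
  k_pos : 0 < k
  area : 2 * Real.pi * k = AA p q
  dc : ∀ φ, HasDerivAt c (-(k * sp (q - 1) (S φ))) φ
  dS : ∀ φ, HasDerivAt S (k * sp (p - 1) (c φ)) φ
  ham : ∀ φ, |c φ| ^ p / p + |S φ| ^ q / q = 1
  even : ∀ φ, c (-φ) = c φ
  odd : ∀ φ, S (-φ) = - S φ
  cpi : ∀ φ, c (φ + Real.pi) = - c φ
  Spi : ∀ φ, S (φ + Real.pi) = - S φ
  cpos : ∀ φ, |φ| < Real.pi / 2 → 0 < c φ
  Spos : ∀ φ, 0 < φ → φ < Real.pi → 0 < S φ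

/-- the point `e^{iφ}` -/
def ee (φ : ℝ) : ℂ := Complex.exp (φ * Complex.I)

/-- an odd map of the closed unit disc with `Re h' > 0`, `Re (z h' conj h) > 0` -/
structure Disc where
  h : ℂ → ℂ
  hd : ℂ → ℂ
  c0 : ℝ
  c0_pos : 0 < c0
  der : ∀ z : ℂ, ‖z‖ < 1 → HasDerivAt h (hd z) z
  cont : ContinuousOn h (Metric.closedBall 0 1)
  contd : ContinuousOn hd (Metric.closedBall 0 1)
  dda : DifferentiableOn ℂ hd (Metric.ball 0 1)
  re : ∀ z : ℂ, ‖z‖ ≤ 1 → c0 ≤ (hd z).re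
  zero : h 0 = 0
  real0 : (hd 0).im = 0
  odd : ∀ z : ℂ, h (-z) = - h z
  evend : ∀ z : ℂ, hd (-z) = hd z
  star : ∀ z : ℂ, ‖z‖ ≤ 1 → z ≠ 0 → 0 < (z * hd z * starRingEnd ℂ (h z)).re
  derb : ∀ φ : ℝ, HasDerivAt (fun φ : ℝ => h (ee φ)) (Complex.I * ee φ * hd (ee φ)) φ

namespace Disc

/-- the image of the open disc -/
def U (D : Disc) : Set ℂ := D.h '' Metric.ball 0 1

open Classical in
/-- inverse of `h` on the image of the closed disc (value `1` elsewhere) -/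
def E (D : Disc) (t : ℂ) : ℂ :=
  if ht : ∃ z : ℂ, ‖z‖ ≤ 1 ∧ D.h z = t then Classical.choose ht else 1

/-- `V(t) = inf {s > 0 : s^{-1/p} t ∈ U}` -/
def V (D : Disc) (p : ℝ) (t : ℂ) : ℝ := sInf {s : ℝ | 0 < s ∧ ((s ^ (-(1 / p)) : ℝ) : ℂ) * t ∈ D.U}

/-- the point `ζ` of the unit circle with `t = V(t)^{1/p} h(ζ)` -/
def ze (D : Disc) (p : ℝ) (t : ℂ) : ℂ := D.E (((D.V p t ^ (-(1 / p)) : ℝ) : ℂ) * t)

/-- `B(z) = Re (z h'(z) conj (h z))` -/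
def B (D : Disc) (z : ℂ) : ℝ := (z * D.hd z * starRingEnd ℂ (D.h z)).re

/-- the density `ρ(t) = k p V(t)^{1 - 2/p} / B(ζ(t))` -/
def rho (D : Disc) (p k : ℝ) (t : ℂ) : ℝ :=
  if t = 0 then 0 else k * p * D.V p t ^ (1 - 2 / p) / D.B (D.ze p t)

/-- `F(t) = V(t)^{1/q} S(arg ζ(t))` -/
def F (D : Disc) (p q : ℝ) (S : ℝ → ℝ) (t : ℂ) : ℝ := D.V p t ^ (1 / q) * S (Complex.arg (D.ze p t))

end Disc

/-! ## the data used in several variables -/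

/-- one-variable data used by the several-variable argument -/
structure Dat (p q : ℝ) where
  L : Lens
  h : ℂ → ℂ
  k : ℝ
  k_pos : 0 < k
  V : ℂ → ℝ
  F : ℂ → ℝ
  rho : ℂ → ℝ
  cont : ContinuousOn h (Metric.closedBall 0 1)
  hmeas : Measurable h
  push : ∀ m : ℕ, 1 ≤ m → ∀ G : ℂ → ℝ≥0∞, Measurable G →
    ∫⁻ t, G t * ENNReal.ofReal (af L m t) =
      ENNReal.ofReal ((m : ℝ) / 2) * ∫⁻ v in Ioo (0 : ℝ) 1, ∫⁻ φ in Ioo (-Real.pi) Real.pi,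
        G (h (((v ^ (1 / (2 * (m : ℝ))) : ℝ) : ℂ) * ee φ))
  nrm : ∀ m : ℕ, 1 ≤ m → ∀ v φ : ℝ, 0 < v → v < 1 →
    ‖gf L m (h (((v ^ (1 / (2 * (m : ℝ))) : ℝ) : ℂ) * ee φ))‖ ^ 2 = v
  Vcont : Continuous V
  Vnn : ∀ t, 0 ≤ V t
  Vlt : ∀ (t : ℂ) (s : ℝ), 0 < s → (((s ^ (-(1 / p)) : ℝ) : ℂ) * t ∈ L.W ↔ V t < s)
  VT : ∀ s φ : ℝ, 0 < s → V (((s ^ (1 / p) : ℝ) : ℂ) * h (ee φ)) = s
  rmeas : Measurable rho
  rnn : ∀ t, 0 ≤ rho t
  chg : ∀ G : ℂ → ℝ≥0∞, Measurable G →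
    ENNReal.ofReal k * ∫⁻ s in Ioi (0 : ℝ), ∫⁻ φ in Ioo (-Real.pi) Real.pi,
        G (((s ^ (1 / p) : ℝ) : ℂ) * h (ee φ)) ≤
      ∫⁻ t, G t * ENNReal.ofReal (rho t)
  Fder : ∀ x y : ℝ, x ≠ 0 → HasDerivAt (fun y : ℝ => F ⟨x, y⟩) (rho ⟨x, y⟩) y
  rpos : ∀ x y : ℝ, x ≠ 0 → 0 < rho ⟨x, y⟩
  VF : ∀ x y : ℝ, x ≠ 0 → V ⟨x, y⟩ = |x| ^ p / p + |F ⟨x, y⟩| ^ q / q

namespace Dat

/-- `T(s, φ) = s^{1/p} h(e^{iφ})` -/
def T {p q : ℝ} (D : Dat p q) (s φ : ℝ) : ℂ := ((s ^ (1 / p) : ℝ) : ℂ) * D.h (ee φ)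

/-- `T_m(v, φ) = h(v^{1/(2m)} e^{iφ})` -/
def H {p q : ℝ} (D : Dat p q) (m : ℕ) (v φ : ℝ) : ℂ :=
  D.h (((v ^ (1 / (2 * (m : ℝ))) : ℝ) : ℂ) * ee φ)

/-- `Σ_k V(l_k(z))` -/
def VS {p q : ℝ} (D : Dat p q) {κ : Type} [Fintype κ] {n : ℕ} (l : κ → Fin n → ℝ) (z : E2 n) : ℝ :=
  ∑ k, D.V (pk (l k) z)

open Classical in
/-- `Σ_{k ∉ range f} V(l_k(z))` -/
def VO {p q : ℝ} (D : Dat p q) {κ : Type} [Fintype κ] {n : ℕ} (l : κ → Fin n → ℝ)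
    (f : Fin n → κ) (z : E2 n) : ℝ :=
  ∑ k ∈ Finset.univ.filter (fun k => k ∉ Set.range f), D.V (pk (l k) z)

end Dat

/-- `(0,∞)^n` -/
def Pos (n : ℕ) : Set (Fin n → ℝ) := {s | ∀ i, 0 < s i}

/-- `(0,1)^n` -/
def Cub (n : ℕ) : Set (Fin n → ℝ) := {v | ∀ i, 0 < v i ∧ v i < 1}

/-- `(-π,π)^n` -/
def Ang (n : ℕ) : Set (Fin n → ℝ) := {φ | ∀ i, -Real.pi < φ i ∧ φ i < Real.pi}

/-- the inverse of `z ↦ (l_{f i}(z))_i` -/
def zf {κ : Type} {n : ℕ} (l : κ → Fin n → ℝ) (f : Fin n → κ) (t : Fin n → ℂ) : E2 n :=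
  ((Matrix.of fun i j => l (f i) j)⁻¹ *ᵥ (fun i => (t i).re),
   (Matrix.of fun i j => l (f i) j)⁻¹ *ᵥ (fun i => (t i).im))

/-- the forms divided by `s_k^{1/p}` -/
def sc {κ : Type} {n : ℕ} (p : ℝ) (s : κ → ℝ) (l : κ → Fin n → ℝ) : κ → Fin n → ℝ :=
  fun k => (s k ^ (-(1 / p))) • l k

/-- `{x : Σ_k |l_k(x)|^p ≤ 1}` -/
def KK {κ : Type} [Fintype κ] {n : ℕ} (p : ℝ) (l : κ → Fin n → ℝ) : Set (Fin n → ℝ) :=
  {x | ∑ k, |l k ⬝ᵥ x| ^ p ≤ 1}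

/-- polar set -/
def PP {n : ℕ} (K : Set (Fin n → ℝ)) : Set (Fin n → ℝ) := {y | ∀ x ∈ K, ∑ i, x i * y i ≤ 1}

/-! ## pieces, one variable -/

/-- BET: a Beta integral.

Proof: substitute `u = sin² θ` (`du = 2 sin θ cos θ dθ`) on `(0, π/2)` in
`B(1/q, 1/p) = ∫_0^1 u^{1/q-1} (1-u)^{1/p-1} du = Γ(1/p) Γ(1/q) / Γ(1)`, as `1/p + 1/q = 1`
(Mathlib: `Complex.betaIntegral`, `Complex.betaIntegral_convergent`,
`Complex.Gamma_mul_Gamma_eq_betaIntegral`; `MeasureTheory.integral_image_eq_integral_abs_deriv_smul`,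
`integrableOn_image_iff_integrableOn_abs_deriv_smul`). -/
def S_BET : Prop := ∀ p q : ℝ, 1 < p → Real.HolderConjugate p q →
  IntervalIntegrable (fun θ : ℝ => |Real.sin θ| ^ (2 / q - 1) * |Real.cos θ| ^ (2 / p - 1))
    volume 0 (Real.pi / 2) ∧
  ∫ θ in (0 : ℝ)..(Real.pi / 2), |Real.sin θ| ^ (2 / q - 1) * |Real.cos θ| ^ (2 / p - 1) =
    Real.Gamma (1 / p) * Real.Gamma (1 / q) / 2

/-- TRIG: existence of the generalised trigonometric functions.  Prove `theorem TRIG (h : S_BET) : S_TRIG`.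

Proof: `w θ = |sin θ|^{2/q-1} |cos θ|^{2/p-1}` (`2/q-1 ∈ (-1,0)`, `2/p-1 ∈ (0,1)`) is `> 0` off
`(π/2)ℤ`, continuous off `πℤ`, even, `π`-periodic, `w (π-θ) = w θ`, locally integrable (BET). Let
`lam = π / (Γ(1/p) Γ(1/q))`, `P θ = lam ∫_0^θ w`: continuous, strictly increasing, odd,
`P (θ+π) = P θ + π`, `P(π/2) = π/2`, a bijection `ℝ → ℝ` with
continuous strictly increasing inverse `Θ`, `Θ(-φ) = -Θ φ`, `Θ (φ+π) = Θ φ + π`, `Θ (π/2) = π/2`,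
and `Θ' φ = 1/(lam w(Θ φ))` for `φ ∉ (π/2)ℤ`.  Put `c φ = p^{1/p} sgn(cos Θφ) |cos Θφ|^{2/p}`,
`S φ = q^{1/q} sgn(sin Θφ) |sin Θφ|^{2/q}`, `k = AA p q / (2π)
 = (2/p) p^{1/p} q^{-1/p} / lam = (2/q) q^{1/q} p^{-1/q} / lam` (use `Γ(x+1) = x Γ(x)`, `1/p+1/q=1`).
`ham` is `cos² + sin² = 1`.  For `φ ∉ (π/2)ℤ` the chain rule gives
`c' = -k sgn(S)|S|^{q-1}`, `S' = k sgn(c)|c|^{p-1}`; `c`, `S` and the right-hand sides are continuous
everywhere, so by the fundamental theorem of calculus with countable exceptional set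
(`intervalIntegral.integral_eq_of_hasDerivAt_off_countable`-type lemma
`MeasureTheory.integral_eq_of_hasDerivWithinAt_off_countable`, or
`hasDerivAt_of_hasDerivAt_of_ne`-type lemma) the formulas hold everywhere.
Signs: `cpos`, `Spos` from `Θ((-π/2,π/2)) = (-π/2,π/2)`, `Θ((0,π)) = (0,π)`. -/
def S_TRIG : Prop := ∀ p q : ℝ, 1 < p → p < 2 → Real.HolderConjugate p q → Nonempty (Trig p q)

/-- FOUR: Fourier series of `c`.

Proof: `c` is `2π`-periodic (`cpi` twice) and `C²`: `c' = -k sp (q-1) S` and `q-1 > 1`, so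
`c'' = -k (q-1)|S|^{q-2} S' = -k² (q-1) |S|^{q-2} sp (p-1) c =: -w`, continuous and `2π`-periodic.
Let `C n` (`n : ℤ`) be the Fourier coefficients of `c` on `AddCircle (2π)` (`fourierCoeff`,
`fourierCoeffOn`).  Integrating by parts twice (`fourierCoeffOn_of_hasDerivAt`, boundary terms
cancel by periodicity) `n² C n = W n`, the coefficients of `w`, and `Σ |W n|² < ∞`
(`hasSum_sq_fourierCoeff` / Parseval / Bessel), so `|n| |C n| = |W n|/|n| ≤ |W n|² + 1/n²` is summable.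
Hence the Fourier series of `c` converges to `c`
(`has_pointwise_sum_fourier_series_of_summable`).  As `c` is even and `c(φ+π) = -c φ`: `C n` is real,
`C(-n) = C n`, `C n = 0` for `n` even.  Put `a n = 2 C n` for `n ≥ 1`, `a 0 = 0`
(`HasSum.nat_add_neg` turns the sum over `ℤ` into one over `ℕ`).
`a 1 = (1/π) ∫_{-π}^{π} c cos > 0` because `c cos ≥ 0` (`cpos`, `cpi`, even). -/
def S_FOUR : Prop := ∀ p q : ℝ, 1 < p → p < 2 → Real.HolderConjugate p q → ∀ T : Trig p q,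
  ∃ a : ℕ → ℝ, Summable (fun n : ℕ => (n : ℝ) * |a n|) ∧ (∀ n, Even n → a n = 0) ∧
    (∀ φ : ℝ, HasSum (fun n : ℕ => a n * Real.cos (n * φ)) (T.c φ)) ∧ 0 < a 1

/-- the power series `Σ a_n z^n` -/
def hs (a : ℕ → ℝ) (z : ℂ) : ℂ := ∑' n : ℕ, ((a n : ℝ) : ℂ) * z ^ n

/-- its derivative `Σ n a_n z^(n-1)` -/
def hd1 (a : ℕ → ℝ) (z : ℂ) : ℂ := ∑' n : ℕ, ((n * a n : ℝ) : ℂ) * z ^ (n - 1)

/-- `z h'(z) = Σ n a_n z^n` -/
def g1 (a : ℕ → ℝ) (z : ℂ) : ℂ := ∑' n : ℕ, ((n * a n : ℝ) : ℂ) * z ^ n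

/-- the derivative of `z h'(z)` : `Σ n² a_n z^(n-1)` -/
def g2 (a : ℕ → ℝ) (z : ℂ) : ℂ := ∑' n : ℕ, ((n ^ 2 * a n : ℝ) : ℂ) * z ^ (n - 1)

/-- PSR: regularity of the power series.

Proof: all the series converge absolutely and uniformly on the closed disc by `Σ n|a n| < ∞`
(`continuousOn_tsum`, `hasDerivAt_tsum`); for `g1' = g2` and `hd1` differentiable in the open disc
use that power series (or `n² r^n |a n|` summable for `r < 1`; or: a locally uniform limit of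
polynomials is differentiable, `hasDerivAt_tsum_of_isPreconnected` on `ball 0 r`).
The identities off the disc hold termwise under `tsum` (`tsum_mul_left`, `tsum_neg`,
`Complex.conj_tsum`; terms with `n` even vanish; `n = 0` gives `0`). -/
def S_PSR : Prop := ∀ a : ℕ → ℝ, Summable (fun n : ℕ => (n : ℝ) * |a n|) → (∀ n, Even n → a n = 0) →
  ContinuousOn (hs a) (Metric.closedBall 0 1) ∧ ContinuousOn (hd1 a) (Metric.closedBall 0 1) ∧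
  (∀ z : ℂ, ‖z‖ < 1 → HasDerivAt (hs a) (hd1 a z) z) ∧
  (∀ z : ℂ, ‖z‖ < 1 → HasDerivAt (g1 a) (g2 a z) z) ∧
  DifferentiableOn ℂ (hd1 a) (Metric.ball 0 1) ∧
  (∀ z : ℂ, g1 a z = z * hd1 a z) ∧
  (∀ z : ℂ, hs a (-z) = - hs a z) ∧ (∀ z : ℂ, hd1 a (-z) = hd1 a z) ∧
  (∀ z : ℂ, hs a (starRingEnd ℂ z) = starRingEnd ℂ (hs a z)) ∧
  (∀ z : ℂ, hd1 a (starRingEnd ℂ z) = starRingEnd ℂ (hd1 a z)) ∧
  hs a 0 = 0 ∧ hd1 a 0 = ((a 1 : ℝ) : ℂ) ∧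
  (∀ φ : ℝ, HasDerivAt (fun φ : ℝ => hs a (ee φ)) (Complex.I * ee φ * hd1 a (ee φ)) φ) ∧
  (∀ φ : ℝ, HasSum (fun n : ℕ => a n * Real.cos (n * φ)) (hs a (ee φ)).re)

/-- POSA: positivity by the maximum principle.  Prove `theorem POSA (h : S_PSR) : S_POSA`.

Proof: `(hs a (ee φ)).re = c φ`, so differentiating (PSR, `dc`) `(g1 a (ee φ)).im = -c' φ =
k sp (q-1) (S φ)`, which is `> 0` on `(0,π)` (third claim) and `0` at `0, π`; on the real axis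
`g1` is real (conj-symmetry).
First claim: `g1` is continuous on the closed upper half disc, holomorphic inside, `Im g1 ≥ 0` on the
boundary, so `‖exp(I g1)‖ = exp(-Im g1) ≤ 1` on the boundary, hence inside
(`Complex.norm_le_of_forall_mem_frontier_norm_le` on `{‖z‖<1, 0 < im z}`).
Second claim: for small `δ > 0` let `G(z) = (g1 (z e^{iδ}) - g1 (z e^{-iδ}))/(2 I δ)`,
holomorphic in the disc, continuous on the closed disc.
On the right half of the circle, `z = ee φ`, `|φ| ≤ π/2`: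
`Re G = (Im g1(ee(φ+δ)) - Im g1(ee(φ-δ)))/(2δ) = k (sp (q-1) (S(φ+δ)) - sp (q-1) (S(φ-δ)))/(2δ) ≥ 0`,
since `S` is increasing on `[-π/2,π/2]` (`S' ≥ 0`), `S(π-φ) = S φ` and `sp` is increasing:
`S(φ+δ) ≥ S(φ-δ)` for `|φ| ≤ π/2`, `0 ≤ δ ≤ π/2`.
On the imaginary axis `z = i t`: `z e^{-iδ} = - conj (z e^{iδ})`, and `g1(-conj w) = -conj(g1 w)`
(oddness and conj-symmetry), so `Re G = 0`.  By the maximum principle (as above, with `exp(-G)`, on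
`{‖z‖<1, 0 < re z}`) `Re G ≥ 0` on the closed right half disc.  Let `δ → 0`: `G(z) → z g1'(z)`
for `‖z‖ < 1` (derivative of `δ ↦ g1 (z e^{iδ})` at `0` is `i z g2 a z`). -/
def S_POSA : Prop := ∀ p q : ℝ, 1 < p → p < 2 → Real.HolderConjugate p q → ∀ T : Trig p q,
  ∀ a : ℕ → ℝ, Summable (fun n : ℕ => (n : ℝ) * |a n|) → (∀ n, Even n → a n = 0) →
    (∀ φ : ℝ, HasSum (fun n : ℕ => a n * Real.cos (n * φ)) (T.c φ)) →
    (∀ z : ℂ, ‖z‖ ≤ 1 → 0 ≤ z.im → 0 ≤ (g1 a z).im) ∧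
    (∀ z : ℂ, ‖z‖ < 1 → 0 ≤ z.re → 0 ≤ (z * g2 a z).re) ∧
    (∀ φ : ℝ, 0 < φ → φ < Real.pi → 0 < (g1 a (ee φ)).im)

/-- POSB: the disc map.  Prove `theorem POSB (h : S_PSR) : S_POSB`, with `D.h = hs a`, `D.hd = hd1 a`.

Proof: `g1 = z hd1`.  For `cos φ ≥ 0`, `r ↦ Re g1(r e^{iφ})` is nondecreasing on `[0,1]` (derivative
`Re(z g2)/r ≥ 0` for `0<r<1`, continuity), zero at `0`, and if `cos φ > 0` it is `> 0` for small
`r > 0` (`g1(z)/z → a 1 > 0` as `z → 0`), hence for all `r ∈ (0,1]`.  By conj-symmetry `Im g1 ≤ 0` on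
the lower half disc, `Im g1 ≥ 0` on the upper one.  On the unit circle: if `cos φ > 0`,
`Re hd1 = Re g1 cos φ + Im g1 sin φ > 0`; if `cos φ = 0`, `Re hd1 = |Im g1| > 0` (third hypothesis);
if `cos φ < 0` use `hd1(-z) = hd1 z`.  So `Re hd1 ≥ c0 > 0` on the (compact) circle, hence on
the closed disc (`‖exp(-hd1)‖ ≤ e^{-c0}`, maximum principle).
`star`: `B = Re(g1 conj h) = Re g1 Re h + Im g1 Im h`.  Since `r d/dr h(r e^{iφ}) = g1`: for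
`cos φ > 0`, `Re h > 0` (`Re h(0) = 0`, derivative `Re g1 / r > 0`) and `Im h` has the sign of
`Im g1` (weakly), so `B > 0`.  For `cos φ = 0` (`z = ± i r`): `Im g1 = ± r Re hd1`, `Im h = ∫ Re hd1`
have the same strict sign, `B > 0`.  For `cos φ < 0` use oddness. -/
def S_POSB : Prop := ∀ a : ℕ → ℝ, Summable (fun n : ℕ => (n : ℝ) * |a n|) →
    (∀ n, Even n → a n = 0) → 0 < a 1 →
    (∀ z : ℂ, ‖z‖ ≤ 1 → 0 ≤ z.im → 0 ≤ (g1 a z).im) →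
    (∀ z : ℂ, ‖z‖ < 1 → 0 ≤ z.re → 0 ≤ (z * g2 a z).re) →
    (∀ φ : ℝ, 0 < φ → φ < Real.pi → 0 < (g1 a (ee φ)).im) →
    ∃ D : Disc, D.h = hs a

/-- LEN: the lens of a disc map (compare `Pool/Agent/H712R2/MA/H2.lean`, `H1.lean`, which do this for
a special `h`).

Proof: for `z, w` in the open disc, `Re ((h z - h w)/(z - w)) = ∫_0^1 Re hd ≥ c0` (or the
mean value inequality for `h - c0 • id`: real part of `conj(z-w) (h z - h w)` along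
the segment), and by continuity on the closed disc.  So `h` is injective on the closed disc, its
inverse `E` is Lipschitz on the image, `U` is open (inverse function theorem /
open mapping), `e = E` on `U`, `1` off `U`; `deriv e (h z) = 1/hd z` (inverse function theorem,
`HasDerivAt.of_local_left_inverse` / `HasStrictDerivAt.to_localInverse`);
`{‖e‖ ≤ r} = h '' closedBall 0 r` for `0 ≤ r < 1` is compact; `‖h z‖ ≤ C ‖z‖` (`hd` bounded on the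
compact closed disc); `‖deriv e‖ ≤ 1/c0`; `deriv e 0 = 1/hd 0`, real positive (`real0`, `re`). -/
def S_LEN : Prop := ∀ D : Disc,
  (∀ z w : ℂ, ‖z‖ ≤ 1 → ‖w‖ ≤ 1 → D.c0 * ‖z - w‖ ≤ ‖D.h z - D.h w‖) ∧
  IsOpen D.U ∧ (∀ z : ℂ, ‖z‖ ≤ 1 → D.E (D.h z) = z) ∧
  ContinuousOn D.E (D.h '' Metric.closedBall 0 1) ∧
  ∃ L : Lens, L.W = D.U ∧ (∀ z : ℂ, ‖z‖ < 1 → L.e (D.h z) = z) ∧
    ∀ z : ℂ, ‖z‖ < 1 → deriv L.e (D.h z) = 1 / D.hd z

/-- STA: the image is star-shaped, and the circle is mapped outside.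
Prove `theorem STA (h : S_LEN) : S_STA`.

Proof: second claim: injectivity on the closed disc.  First claim: `D.B z / ‖z‖²` has a
positive lower bound on `0 < ‖z‖ ≤ 1` (continuous and positive there; near `0` it is
`Re(hd z conj(h z / z)) → ‖hd 0‖² > 0`; use `h z / z → hd 0`), so there is `b > 0` with
`Re (h z / (z hd z)) = B z/‖z hd z‖² ≥ b` for `0 < ‖z‖ ≤ 1` (`hd` bounded).
Let `0 < ‖z‖ < 1`, `t = h z`.  While `e^{-τ} t ∈ h '' closedBall 0 ‖z‖`, `N(τ) = ‖E(e^{-τ} t)‖²`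
has derivative `-2 Re(h w/(w hd w)) ‖w‖² ≤ -2 b N` (`w = E(e^{-τ} t)`,
derivative of `E` is `1/hd w`).  The set of `τ ≥ 0` with `e^{-τ'} t ∈ h '' closedBall 0 ‖z‖` for all
`τ' ≤ τ` is closed (compactness) and open to the right (`U` is open and `N` decreases), so it is
`[0,∞)` (`IsClosed.Icc_subset_of_forall_exists_gt`), and `‖E(r t)‖ ≤ r^b ‖z‖` for `0 < r ≤ 1`.
For `‖z‖ = 1` pass to the limit `z_n → z`: `r h z ∈ h '' closedBall 0 1` and `‖E(r h z)‖ ≤ r^b < 1`. -/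
def S_STA : Prop := ∀ D : Disc,
  (∀ z : ℂ, ‖z‖ ≤ 1 → ∀ r : ℝ, 0 ≤ r → r < 1 → (r : ℂ) * D.h z ∈ D.U) ∧
  (∀ z : ℂ, ‖z‖ = 1 → D.h z ∉ D.U)

/-- VVV: the gauge-like function `V`.  Prove `theorem VVV (h1 : S_LEN) (h2 : S_STA) : S_VVV`.

Proof: let `A_t = {s > 0 : s^{-1/p} t ∈ U}`; it is nonempty (`s → ∞`, `U` open, `0 ∈ U`), and if
`s ∈ A_t`, `s' > s` then `s' ∈ A_t` (STA: `U` is star-shaped), and `s'' ∈ A_t` for some `s'' < s`
(`U` open): first claim.  `{V < s}` is open.  For `s > 0`, `{V ≤ s} = {t : s^{-1/p} t ∈ h '' closedBall 0 1}`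
is closed (STA; limits), `{V ≤ 0} = {0}` (`U` bounded): continuity.  If `‖z‖ = 1`, `t = s^{1/p} h z`,
then for `s' > s` `s'^{-1/p} t = (s/s')^{1/p} h z ∈ U`, while `h z ∉ U`: so `V t = s`, `ze t = E (h z) = z`.
If `t ≠ 0` then `V t > 0`, `V^{-1/p} t` is in the closure of `U`, i.e. in `h '' closedBall 0 1`, and not
in `U`: so it is `h z` with `‖z‖ = 1`.  `ze` is the composition of a continuous map into
`h '' closedBall 0 1` and of `E`.  The last claim follows from `h(-z) = -h z`. -/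
def S_VVV : Prop := ∀ D : Disc, ∀ p : ℝ, 0 < p →
  (∀ (t : ℂ) (s : ℝ), 0 < s → (((s ^ (-(1 / p)) : ℝ) : ℂ) * t ∈ D.U ↔ D.V p t < s)) ∧
  Continuous (D.V p) ∧ (∀ t, 0 ≤ D.V p t) ∧
  (∀ (s : ℝ) (z : ℂ), 0 < s → ‖z‖ = 1 → D.V p (((s ^ (1 / p) : ℝ) : ℂ) * D.h z) = s ∧
    D.ze p (((s ^ (1 / p) : ℝ) : ℂ) * D.h z) = z) ∧
  (∀ t : ℂ, t ≠ 0 → 0 < D.V p t ∧ ‖D.ze p t‖ = 1 ∧
    ((D.V p t ^ (1 / p) : ℝ) : ℂ) * D.h (D.ze p t) = t) ∧
  ContinuousOn (D.ze p) {0}ᶜ ∧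
  (∀ t : ℂ, t ≠ 0 → D.V p (-t) = D.V p t ∧ D.ze p (-t) = - D.ze p t)

/-- PSH: push-forward under `h` in polar coordinates (compare `Pool/Agent/H712R2/MA/H5.lean`).

Proof: `af L m = 0` off `U`; with `t = h z` (`lintegral_image_eq_lintegral_abs_det_fderiv_mul`, `h` is
injective with derivative `hd`) `‖hd z‖² af L m (h z) = m² ‖z‖^{2(m-1)}`; polar coordinates
`z = r e^{iφ}`, and `v = r^{2m}`, `(m/2) dv = m² r^{2m-1} dr`.  (Injectivity of `h` in the open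
disc follows from `L.e (h z) = z`.) -/
def S_PSH : Prop := ∀ (D : Disc) (L : Lens), L.W = D.U →
  (∀ z : ℂ, ‖z‖ < 1 → L.e (D.h z) = z) → (∀ z : ℂ, ‖z‖ < 1 → deriv L.e (D.h z) = 1 / D.hd z) →
  (∀ m : ℕ, 1 ≤ m → ∀ G : ℂ → ℝ≥0∞, Measurable G →
    ∫⁻ t, G t * ENNReal.ofReal (af L m t) =
      ENNReal.ofReal ((m : ℝ) / 2) * ∫⁻ v in Ioo (0 : ℝ) 1, ∫⁻ φ in Ioo (-Real.pi) Real.pi,
        G (D.h (((v ^ (1 / (2 * (m : ℝ))) : ℝ) : ℂ) * ee φ))) ∧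
  (∀ m : ℕ, 1 ≤ m → ∀ v φ : ℝ, 0 < v → v < 1 →
    ‖gf L m (D.h (((v ^ (1 / (2 * (m : ℝ))) : ℝ) : ℂ) * ee φ))‖ ^ 2 = v)

/-- FRO: the function `F` and its derivative on vertical lines.  Prove `theorem FRO (h : S_VVV) : S_FRO`.

Proof: let `t = x + i y`, `x > 0`, `ζ = ze t`, `φ = arg ζ`, so `ζ = ee φ` and `t = V^{1/p} h(ee φ)`, hence
`x = V^{1/p} c φ`, `c φ > 0`, `|φ| < π/2` (`cpos`, `cpi`), `F = V^{1/q} S φ`, and `ham` gives the last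
claim.  With `V = (x / c φ)^p`: `y = x Y(φ)/c(φ)` where `Y φ = Im h(ee φ)`, and
`F = x^{p-1} S(φ)/c(φ)^{p-1}` (`p/q = p-1`).  Conversely for `|φ| < π/2` the point `x + i x Y(φ)/c(φ)`
has `ze = ee φ` (VVV, 4th claim).  `φ ↦ x Y/c` has derivative `x B(ee φ)/c²`
(`derb`: `c' + i Y' = i ζ hd ζ`, so `c Y' - c' Y = Re(ζ hd ζ conj h) = B`), `> 0`, and
`S/c^{p-1}` has derivative `k p / c^p` (`dc`, `dS`, `ham`).  `y ↦ arg (ze (x+iy))` is continuous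
(VVV 6th claim), so by `HasDerivAt.of_local_left_inverse` its derivative is `c²/(x B)` and
`dF/dy = x^{p-1} (k p/c^p) c²/(x B) = k p (x/c)^{p-2}/B = k p V^{1-2/p}/B = rho`.
For `x < 0` use `F(-t) = -F(t)`, `rho(-t) = rho(t)`, `V(-t) = V(t)` (VVV last claim, `S(φ+π) = -S φ`,
`hd(-z) = hd z`, `h(-z) = -h z`; `S ∘ arg` at `-ζ` is `-` that at `ζ` by `Spi` and periodicity). -/
def S_FRO : Prop := ∀ p q : ℝ, 1 < p → p < 2 → Real.HolderConjugate p q → ∀ (T : Trig p q) (D : Disc),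
  (∀ φ : ℝ, (D.h (ee φ)).re = T.c φ) → ∀ x y : ℝ, x ≠ 0 →
    HasDerivAt (fun y : ℝ => D.F p q T.S ⟨x, y⟩) (D.rho p T.k ⟨x, y⟩) y ∧
    0 < D.rho p T.k ⟨x, y⟩ ∧ D.V p ⟨x, y⟩ = |x| ^ p / p + |D.F p q T.S ⟨x, y⟩| ^ q / q

/-- CHG: change of variables `t = s^{1/p} h(e^{iφ})`.  Prove `theorem CHG (h1 : S_VVV) : S_CHG`.

Proof: `rho` is measurable (`ze` continuous off `0`, `D.B` continuous on the closed disc, `V`
continuous) and `≥ 0` (`star`).  `T(s,φ) = s^{1/p} h(ee φ)` on `(0,∞) × (-π,π)` is injective (VVV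
4th claim), differentiable with determinant `(1/p) s^{2/p-1} B(ee φ) > 0` (columns
`(1/p) s^{1/p-1} h` and `s^{1/p} i ζ hd ζ`), and
`rho(T(s,φ)) (1/p) s^{2/p-1} B(ee φ) = k`.  So the left-hand side is `∫_{image of T} G rho`
(`lintegral_image_eq_lintegral_abs_det_fderiv_mul`, on `ℝ × ℝ` → `ℂ` through
`Complex.measurableEquivRealProd` / `Complex.volume_preserving_equiv_real_prod`). -/
def S_CHG : Prop := ∀ (D : Disc) (p k : ℝ), 1 < p → p < 2 → 0 < k →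
  Measurable (D.rho p k) ∧ (∀ t, 0 ≤ D.rho p k t) ∧
  ∀ G : ℂ → ℝ≥0∞, Measurable G →
    ENNReal.ofReal k * ∫⁻ s in Ioi (0 : ℝ), ∫⁻ φ in Ioo (-Real.pi) Real.pi,
        G (((s ^ (1 / p) : ℝ) : ℂ) * D.h (ee φ)) ≤
      ∫⁻ t, G t * ENNReal.ofReal (D.rho p k t)

/-- DAT: all the data -/
def S_DAT : Prop := ∀ p q : ℝ, 1 < p → p < 2 → Real.HolderConjugate p q →
  ∃ D : Dat p q, 2 * Real.pi * D.k = AA p q

/-! ## pieces, several variables -/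

/-- ZF: the linear change of variables (compare `Pool/Agent/H712R2/MA/F.lean`).

Proof: with `M = (l (f i) j)`, `z ↦ (l_{f i}(z))_i` is `(x,u) ↦ (M x, M u)`, of determinant
`det(M)²`, inverse `zf`; `(M')⁻¹ = M⁻¹ diag(s^{1/p})` for the scaled forms. -/
def S_ZF : Prop := ∀ (κ : Type) [Fintype κ] (n : ℕ) (l : κ → Fin n → ℝ) (f : Fin n → κ), dt l f ≠ 0 →
  (∀ t i, pk (l (f i)) (zf l f t) = t i) ∧ Continuous (zf l f) ∧
  (∀ X : E2 n → ℝ≥0∞, Measurable X →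
    ∫⁻ z, ENNReal.ofReal ((dt l f) ^ 2) * X z = ∫⁻ t : Fin n → ℂ, X (zf l f t)) ∧
  (∀ (p : ℝ) (s : κ → ℝ), (∀ k, 0 < s k) → dt (sc p s l) f ≠ 0 ∧ ∀ t : Fin n → ℂ,
    zf (sc p s l) f t = zf l f (fun i => ((s (f i) ^ (1 / p) : ℝ) : ℂ) * t i))

/-- PI: product versions of `push` and `chg`.

Proof: general lemma by induction on `n` with Tonelli (`volume_preserving_piFinSuccAbove`,
`MeasurableEquiv.piFinSuccAbove`, `lintegral_map`), or: `push` says that the measure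
`volume.withDensity (ofReal ∘ af)` is `(m/2)` times the image of Lebesgue measure on
`(0,1) × (-π,π)`, `chg` an inequality between two such measures; take `Measure.pi`;
then go from `Fin n → ℝ × ℝ` to `(Fin n → ℝ) × (Fin n → ℝ)`
(`volume_measurePreserving_arrowProdEquivProdArrow`). -/
def S_PI : Prop := ∀ (p q : ℝ) (D : Dat p q) (n : ℕ) (X : (Fin n → ℂ) → ℝ≥0∞), Measurable X →
  (∀ m : ℕ, 1 ≤ m → ∫⁻ t : Fin n → ℂ, X t * ∏ i, ENNReal.ofReal (af D.L m (t i)) ≤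
    ENNReal.ofReal ((m : ℝ) / 2) ^ n * ∫⁻ v in Cub n, ∫⁻ φ in Ang n,
      X (fun i => D.H m (v i) (φ i))) ∧
  (ENNReal.ofReal D.k ^ n * ∫⁻ s in Pos n, ∫⁻ φ in Ang n, X (fun i => D.T (s i) (φ i)) ≤
    ∫⁻ t : Fin n → ℂ, X t * ∏ i, ENNReal.ofReal (D.rho (t i)))

open Classical in
/-- SP: splitting of an exponential integral.

Proof: identify `κ → ℝ` with `({k // k ∈ range f} → ℝ) × ({k // k ∉ range f} → ℝ)`
(`MeasureTheory.volume_preserving_piEquivPiSubtypeProd`), the first factor with `Fin n → ℝ`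
(`MeasureTheory.volume_measurePreserving_piCongrLeft`, `Equiv.ofInjective`), Tonelli, and
`∫_{s > 0, s > b} e^{-s} ds = e^{-b}` for `b ≥ 0`; the integral of a product over
`{k // k ∉ range f} → ℝ` is the product of the integrals (`lintegral_fintype_prod_eq_prod` /
`MeasureTheory.lintegral_fintype_prod_eq_prod`-type lemma). -/
def S_SP : Prop := ∀ (κ : Type) [Fintype κ] (n : ℕ) (f : Fin n → κ), Function.Injective f →
  ∀ (G : (Fin n → ℝ) → ℝ≥0∞) (B : (Fin n → ℝ) → κ → ℝ), Measurable G →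
    (∀ k, Measurable (fun s => B s k)) → (∀ s k, 0 ≤ B s k) →
    ∫⁻ s in {s : κ → ℝ | ∀ k, 0 < s k}, ENNReal.ofReal (Real.exp (-∑ k, s k)) *
        (G (fun i => s (f i)) * ∏ k ∈ Finset.univ.filter (fun k => k ∉ Set.range f),
          if B (fun i => s (f i)) k < s k then 1 else 0) ≤
      ∫⁻ s in Pos n, ENNReal.ofReal (Real.exp (-∑ i, s i)) *
        (G s * ENNReal.ofReal (Real.exp (-∑ k ∈ Finset.univ.filter (fun k => k ∉ Set.range f),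
          B s k)))

open Classical in
/-- CCA: the integrated inequality for fixed `m`.
Prove `theorem CCA (h6 : S_C6) (hZ : S_ZF) (hPI : S_PI) (hSP : S_SP) : S_CCA`.

Proof: apply `S_C6` to `D.L` and the forms `sc p s l`, `s ∈ (0,∞)^κ`, multiply by `e^{-Σ s_k}` and
integrate over `(0,∞)^κ`: `n!(mπ)^n ∫ψ ≤ Σ_f ∫_s e^{-Σs} ∫_z ψ(VV) ∏ af(l_{f i}(z)/a_{f i}) dt(sc l) f ^2`
(`a_k = s_k^{1/p}`; terms with `dt l f = 0` vanish).
For `f` with `dt l f ≠ 0` (so `f` injective), by ZF for the forms `sc p s l` the inner integral is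
`∫_τ ψ(VV(zf (sc p s l) f τ)) ∏ af(τ_i)` and
`zf (sc p s l) f τ = zf l f (a_{f i} τ_i)`.  Now
`ψ(VV) ≤ ψ(Σ_i ‖gf(τ_i)‖²) ∏_{k ∉ range f} 1[V(l_k(zf l f (a_{f i} τ_i))) < s_k]`:
`ψ` is antitone and `VV ≥ Σ_i ‖gf τ_i‖²`; if `ψ(VV) ≠ 0` then `VV < 1`, so `‖e‖ < 1`, so every
`l_k(z)/a_k` is in `L.W` (`off`), i.e. `V(l_k(z)) < s_k` (`Vlt`).
Swap `∫_s` and `∫_τ` (Tonelli), use SP for fixed `τ`, then PI for `m`, and `nrm`. The factor is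
`(m/2)^n`, so dividing by it `n!(2π)^n ∫ψ ≤ ...` -/
def S_CCA : Prop := ∀ (p q : ℝ) (D : Dat p q), 1 < p →
  ∀ (κ : Type) [Fintype κ] (r : ℕ) (l : κ → Fin (r + 1) → ℝ), Spans l →
  ∀ (ψ : ℝ → ℝ) (v1 : ℝ), Cut ψ v1 → ∀ m : ℕ, 1 ≤ m →
    ENNReal.ofReal (((r + 1).factorial : ℝ) * (2 * Real.pi) ^ (r + 1) *
        ∫ s in Pos (r + 1), ψ (∑ i, s i)) ≤
      ∑ f : Fin (r + 1) → κ, if dt l f = 0 then 0 else
        ∫⁻ v in Cub (r + 1), ENNReal.ofReal (ψ (∑ i, v i)) * ∫⁻ φ in Ang (r + 1),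
          ∫⁻ s in Pos (r + 1), ENNReal.ofReal (Real.exp (-∑ i, s i)) *
            ENNReal.ofReal (Real.exp (- D.VO l f
              (zf l f fun i => ((s i ^ (1 / p) : ℝ) : ℂ) * D.H m (v i) (φ i))))

open Classical in
/-- CC: the integrated inequality after `m → ∞`.
Prove `theorem CC (h : S_CCA) (hZ : S_ZF) (hS : S_S) : S_CC`.

Proof: take `ψ` from `S_S` (`v0 = 1/2`), `I = ∫_{Pos} ψ(Σ s) ∈ (0,∞)`.  In CCA let `m → ∞`:
`D.H m v φ → h(ee φ)` (`v^{1/(2m)} → 1`, `h` continuous on the closed disc), `V`, `zf` continuous,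
dominated convergence with the dominating function `ψ(Σ v) e^{-Σ s}` on `Cub × Ang × Pos`.
The limit is `Σ_f (∫_{Cub} ψ(Σ v)) ∫_{Ang} ∫_{Pos} e^{-Σ s_i} e^{-VO(...)}`, and
`∫_{Cub} ψ(Σ v) ≤ I`; `Σ s_i + VO = VS` by `VT` (`f` is injective since `dt l f ≠ 0`).
Divide by `I`; swap `Ang` and `Pos` (Tonelli). -/
def S_CC : Prop := ∀ (p q : ℝ) (D : Dat p q), 1 < p →
  ∀ (κ : Type) [Fintype κ] (r : ℕ) (l : κ → Fin (r + 1) → ℝ), Spans l →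
    ENNReal.ofReal (((r + 1).factorial : ℝ) * (2 * Real.pi) ^ (r + 1)) ≤
      ∑ f : Fin (r + 1) → κ, if dt l f = 0 then 0 else
        ∫⁻ s in Pos (r + 1), ∫⁻ φ in Ang (r + 1),
          ENNReal.ofReal (Real.exp (- D.VS l (zf l f fun i => D.T (s i) (φ i))))

/-- MID.  Prove `theorem MID (h : S_CC) (hZ : S_ZF) (hPI : S_PI) : S_MID`.

Proof: multiply CC by `k^n`, use the second part of PI for
`X t = exp(-VS l (zf l f t))`, then ZF for `X z = exp(-VS l z) ∏ rho(l_{f i}(z))`, and sum over `f`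
(definition of `DS`). -/
def S_MID : Prop := ∀ (p q : ℝ) (D : Dat p q), 1 < p →
  ∀ (κ : Type) [Fintype κ] (r : ℕ) (l : κ → Fin (r + 1) → ℝ), Spans l →
    ENNReal.ofReal (D.k ^ (r + 1) * (((r + 1).factorial : ℝ) * (2 * Real.pi) ^ (r + 1))) ≤
      ∫⁻ z : E2 (r + 1), ENNReal.ofReal (DS l (fun k => D.rho (pk (l k) z))) *
        ENNReal.ofReal (Real.exp (- D.VS l z))

/-- RS: the real side for fixed `x` (compare `Pool/Agent/H712R2/MA/R1.lean`).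
Prove `theorem RS (h : S_A3) : S_RS`.

Proof: `Y(u) = Σ_k F(l_k(x) + i l_k(u)) • l_k` has derivative `Σ_k rho_k l_k l_kᵀ` (`Fder`), of
determinant `DS l rho / n!` (A3) `≥ 0`; it is injective: `⟨Y u - Y u', u - u'⟩ =
Σ (F_k - F_k')(l_k u - l_k u') > 0` for `u ≠ u'`, as `F(x + i·)` is strictly increasing (`Fder`,
`rpos`) and some `l_k u ≠ l_k u'` (`Spans`).  By `VF`,
`e^{-VS} = e^{-Σ|l_k x|^p/p} e^{-Σ|F_k|^q/q} ≤ e^{-Σ|l_k x|^p/p} e^{-Φ(Y u)}`.  Change of variables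
(`lintegral_image_eq_lintegral_abs_det_fderiv_mul`). -/
def S_RS : Prop := ∀ (p q : ℝ) (D : Dat p q), Real.HolderConjugate p q →
  ∀ (κ : Type) [Fintype κ] (n : ℕ) (l : κ → Fin n → ℝ), Spans l →
  ∀ Φ : (Fin n → ℝ) → ℝ, (∀ F : κ → ℝ, Φ (∑ k, F k • l k) ≤ (∑ k, |F k| ^ q) / q) →
  ∀ x : Fin n → ℝ, (∀ k, l k ⬝ᵥ x ≠ 0) →
    ∫⁻ u : Fin n → ℝ, ENNReal.ofReal (DS l (fun k => D.rho (pk (l k) (x, u)))) *
        ENNReal.ofReal (Real.exp (- D.VS l (x, u))) ≤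
      (n.factorial : ℝ≥0∞) * (ENNReal.ofReal (Real.exp (-((∑ k, |l k ⬝ᵥ x| ^ p) / p))) *
        ∫⁻ y, ENNReal.ofReal (Real.exp (- Φ y)))

/-- MAIN: the functional inequality.  Prove `theorem MAIN (h1 : S_MID) (h2 : S_RS) : S_MAIN`.

Proof: Tonelli in `z = (x,u)` in MID, RS for almost every `x` (`{x : l_k x = 0}` is null because
`l_k ≠ 0`), cancel `n!`. -/
def S_MAIN : Prop := ∀ (p q : ℝ) (D : Dat p q), 1 < p → Real.HolderConjugate p q →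
  ∀ (κ : Type) [Fintype κ] (r : ℕ) (l : κ → Fin (r + 1) → ℝ), Spans l → (∀ k, l k ≠ 0) →
  ∀ Φ : (Fin (r + 1) → ℝ) → ℝ, (∀ F : κ → ℝ, Φ (∑ k, F k • l k) ≤ (∑ k, |F k| ^ q) / q) →
    ENNReal.ofReal ((2 * Real.pi * D.k) ^ (r + 1)) ≤
      (∫⁻ x : Fin (r + 1) → ℝ, ENNReal.ofReal (Real.exp (-((∑ k, |l k ⬝ᵥ x| ^ p) / p)))) *
        ∫⁻ y, ENNReal.ofReal (Real.exp (- Φ y))

/-! ## pieces, volumes -/

/-- VOL: Gaussian-type integrals of norms.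

Proof: `MeasureTheory.measure_lt_one_eq_integral_div_gamma`, `measure_le_eq_lt`, and the scaling
`x = p^{1/p} x'`. -/
def S_VOL : Prop := ∀ (n : ℕ) (g : (Fin n → ℝ) → ℝ), g 0 = 0 → (∀ x, g (-x) = g x) →
  (∀ x y, g (x + y) ≤ g x + g y) → (∀ x, g x = 0 → x = 0) → (∀ (r : ℝ) x, g (r • x) ≤ |r| * g x) →
  ∀ p : ℝ, 0 < p → ∫⁻ x, ENNReal.ofReal (Real.exp (-(g x ^ p / p))) =
    ENNReal.ofReal (p ^ ((n : ℝ) / p) * Real.Gamma (n / p + 1)) * volume {x | g x ≤ 1}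

/-- FIN: the inequality for finitely many forms.
Prove `theorem FIN (h1 : S_DAT) (h2 : S_MAIN) (h3 : S_VOL) : S_FIN`.

Proof: `n = 0` directly.  `n = r+1`: `g x = (Σ|l_k x|^p)^{1/p}` is a norm (Minkowski, `Spans`),
`{g ≤ 1} = KK p l`; the dual norm `g* y = sup_{x ∈ KK} x·y` (or `gauge (PP (KK p l))`) is a norm with
`{g* ≤ 1} = PP (KK p l)`, and `Φ = g*^q/q` satisfies the hypothesis of MAIN by Hölder.  VOL for
`(g,p)` and `(g*,q)`, MAIN, and `2π k = AA p q`: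
`AA^n ≤ p^{n/p} Γ(n/p+1) vol(KK) q^{n/q} Γ(n/q+1) vol(PP)`; divide. -/
def S_FIN : Prop := ∀ (p q : ℝ), 1 < p → p < 2 → Real.HolderConjugate p q →
  ∀ (κ : Type) [Fintype κ] (n : ℕ) (l : κ → Fin n → ℝ), Spans l → (∀ k, l k ≠ 0) →
    ENNReal.ofReal (((2 * Real.Gamma (1 / p + 1)) ^ n / Real.Gamma (n / p + 1)) *
        ((2 * Real.Gamma (1 / q + 1)) ^ n / Real.Gamma (n / q + 1))) ≤
      volume (KK p l) * volume (PP (KK p l))

/-- LPN: the volumes for `ℓ_p^n`.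

Proof: `MeasureTheory.volume_sum_rpow_le` / `volume_sum_rpow_lt_one` for `p` and `q`, and
`PP {Σ|x_i|^p ≤ 1} ⊆ {Σ|y_i|^q ≤ 1}` (test `x_i = sgn(y_i)|y_i|^{q-1}/(Σ|y|^q)^{1/p}`). -/
def S_LPN : Prop := ∀ (p q : ℝ), 1 < p → Real.HolderConjugate p q → ∀ n : ℕ,
    volume {x : Fin n → ℝ | ∑ i, |x i| ^ p ≤ 1} * volume (PP {x : Fin n → ℝ | ∑ i, |x i| ^ p ≤ 1}) ≤
      ENNReal.ofReal (((2 * Real.Gamma (1 / p + 1)) ^ n / Real.Gamma (n / p + 1)) *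
        ((2 * Real.Gamma (1 / q + 1)) ^ n / Real.Gamma (n / q + 1)))

/-- APX: approximation of `L_p` functions by simple functions.

Proof: by linear independence `Σ|x_i| ≤ C g(x)`, `g x = ‖Σ x_i f_i‖`.  Take a simple function
`s : ℝ →ₛ (Fin n → ℝ)` with `eLpNorm ((f_1..f_n) - s) p ≤ δ` (`MemLp.exists_simpleFunc_eLpNorm_sub_lt`).
Then `g'(x) = ‖Σ x_i s_i‖_p = (Σ_v μ(s⁻¹ v) |v·x|^p)^{1/p}` (sum over the values `v` of `s`), so
`g'(x)^p = Σ_k |l_k x|^p` with `κ = {v ∈ s.range : v ≠ 0, μ(s⁻¹ v) ≠ 0}`, `l_v = μ(s⁻¹ v)^{1/p} v`;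
`|g - g'| ≤ δ' Σ|x_i| ≤ δ' C g`.  So `(1-η) g ≤ g' ≤ (1+η) g`, `η → 0`; `KK p l ⊆ (1-η)⁻¹ K`,
`PP (KK p l) ⊆ (1+η) PP K`, and `((1+η)/(1-η))^n ≤ 1+ε`.  `Spans`: `g'` vanishes only at `0`. -/
def S_APX : Prop := ∀ (n : ℕ) (p : ℝ), 1 < p →
  ∀ f : Fin n → Lp ℝ (ENNReal.ofReal p) ((volume : Measure ℝ).restrict (Icc (0:ℝ) 1)),
  LinearIndependent ℝ f → ∀ ε : ℝ, 0 < ε →
    ∃ (κ : Type) (_ : Fintype κ) (l : κ → Fin n → ℝ), Spans l ∧ (∀ k, l k ≠ 0) ∧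
      volume (KK p l) * volume (PP (KK p l)) ≤
        ENNReal.ofReal (1 + ε) * (volume {x : Fin n → ℝ | ‖∑ i, x i • f i‖ ≤ 1} *
          volume (PP {x : Fin n → ℝ | ‖∑ i, x i • f i‖ ≤ 1}))

end H356LP
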